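import Mathlib
import Pool.Agent.Helper376.Ball
import Pool.Agent.Helper376.Lac.OneEnd

namespace Pool.Agent.H388Z.RD

open Pool.Agent.Helper376.DL (Ball ball_succ ball_mono ball_add ball_mono_succ)
open Pool.Agent.Helper376.Lac (Joined finite_lemma)
open Relation

variable {G : Type} [Group G]

theorem ball_fin {U : Set G} (hU : U.Finite) (k : ℕ) : (Ball U k).Finite := by
  induction k with
  | zero => exact Set.finite_singleton 1
  | succ k ih =>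
    refine (Set.Finite.image2 (fun x y => x * y) ih hU).subset ?_
    rintro g ⟨x, hx, y, hy, rfl⟩
    exact ⟨x, hx, y, hy, rfl⟩

theorem ball_subset_ball {U V : Set G} {l : ℕ} (h : U ⊆ Ball V l) {k : ℕ} {g : G}
    (hg : g ∈ Ball U k) : g ∈ Ball V (l * k) := by
  induction k generalizing g with
  | zero => exact hg
  | succ k ih =>
    obtain ⟨x, hx, y, hy, rfl⟩ := hg
    exact ball_add (ih hx) (h hy)

theorem ball_inv {V : Set G} (hV : ∀ s ∈ V, s⁻¹ ∈ V) {k : ℕ} {w : G} (h : w ∈ Ball V k) :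
    w⁻¹ ∈ Ball V k := by
  have key : ∀ k : ℕ, ∀ (y : G) (x : G), y ∈ V → x ∈ Ball V k → y * x ∈ Ball V (k + 1) := by
    intro k
    induction k with
    | zero =>
      intro y x hy hx
      have : x = 1 := hx
      subst this
      exact ⟨1, rfl, y, hy, by simp⟩
    | succ k ih =>
      rintro y x hy ⟨z, hz, u, hu, rfl⟩
      exact ⟨y * z, ih y z hy hz, u, hu, by rw [mul_assoc]⟩
  induction k generalizing w with
  | zero =>
    have : w = 1 := h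
    subst this
    simpa using h
  | succ k ih =>
    obtain ⟨x, hx, y, hy, rfl⟩ := h
    rw [mul_inv_rev]
    exact key k _ _ (hV _ hy) (ih hx)

theorem ball_one {V : Set G} {s : G} (hs : s ∈ V) : s ∈ Ball V 1 := ⟨1, rfl, s, hs, by simp⟩

theorem ball_pow {V : Set G} {s : G} (hs : s ∈ V) (j : ℕ) : s ^ j ∈ Ball V j := by
  induction j with
  | zero => rw [pow_zero]; rfl
  | succ j ih => rw [pow_succ]; exact ball_succ ih hs

theorem ball_zpow {V : Set G} {s : G} (hs : s ∈ V) (hs' : s⁻¹ ∈ V) (j : ℤ) :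
    s ^ j ∈ Ball V j.natAbs := by
  obtain ⟨k, rfl | rfl⟩ := Int.eq_nat_or_neg j
  · rw [zpow_natCast, Int.natAbs_natCast]; exact ball_pow hs k
  · rw [zpow_neg, zpow_natCast, ← inv_pow, Int.natAbs_neg, Int.natAbs_natCast]
    exact ball_pow hs' k

theorem exists_mem_ball {V : Set G} (hV : ∀ s ∈ V, s⁻¹ ∈ V)
    (hgen : Subgroup.closure V = ⊤) (g : G) : ∃ k, g ∈ Ball V k := by
  have hg : g ∈ Subgroup.closure V := by rw [hgen]; trivial
  induction hg using Subgroup.closure_induction_right with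
  | one => exact ⟨0, rfl⟩
  | mul_right x y hx hy ih =>
    obtain ⟨k, hk⟩ := ih
    exact ⟨k + 1, ball_succ hk hy⟩
  | mul_inv_cancel x y hx hy ih =>
    obtain ⟨k, hk⟩ := ih
    exact ⟨k + 1, ball_succ hk (hV _ hy)⟩

theorem exists_scale {U V : Set G} (hU : U.Finite) (h1 : (1 : G) ∈ V) (hV : ∀ s ∈ V, s⁻¹ ∈ V)
    (hgen : Subgroup.closure V = ⊤) : ∃ l, ∀ l', l ≤ l' → U ⊆ Ball V l' := by
  choose f hf using exists_mem_ball hV hgen
  obtain ⟨l, hl⟩ := (hU.image f).bddAbove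
  exact ⟨l, fun l' hl' u hu => ball_mono h1 (le_trans (hl ⟨u, hu, rfl⟩) hl') (hf u)⟩

/-- Refining paths. -/
theorem joined_refine {U V X Y : Set G} {l : ℕ} (h1 : (1 : G) ∈ V) (hUV : U ⊆ Ball V l)
    (hXY : ∀ x ∈ X, ∀ v ∈ Ball V l, x * v ∈ Y) {g h : G} (hj : Joined U X g h) :
    Joined V Y g h := by
  have aux : ∀ k, k ≤ l → ∀ x ∈ X, ∀ v ∈ Ball V k, Joined V Y x (x * v) := by
    intro k
    induction k with
    | zero =>
      intro _ x _ v hv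
      have : v = 1 := hv
      subst this
      rw [mul_one]
      exact ReflTransGen.refl
    | succ k ih =>
      rintro hk x hx _ ⟨v, hv, s, hs, rfl⟩
      refine (ih (by omega) x hx v hv).trans (Pool.Agent.Helper376.Lac.Joined.single ?_ ?_ ?_)
      · exact hXY x hx v (ball_mono h1 (by omega) hv)
      · exact hXY x hx _ (ball_mono h1 hk (ball_succ hv hs))
      · have e : (x * v)⁻¹ * (x * (v * s)) = s := by group
        rw [e]; exact hs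
  induction hj with
  | refl => exact ReflTransGen.refl
  | @tail y z _ hstep ih =>
    obtain ⟨hy, _, hs⟩ := hstep
    refine ih.trans ?_
    have := aux l le_rfl y hy (y⁻¹ * z) (hUV hs)
    rwa [mul_inv_cancel_left] at this

theorem closure_ind_sym {X : Set G} (hX : ∀ x ∈ X, x⁻¹ ∈ X) {p : G → Prop} (h1 : p 1)
    (hm : ∀ x ∈ Subgroup.closure X, ∀ y ∈ X, p x → p (x * y)) :
    ∀ g ∈ Subgroup.closure X, p g := by
  intro g hg
  induction hg using Subgroup.closure_induction_right with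
  | one => exact h1
  | mul_right x hx y hy ih => exact hm x hx y hy ih
  | mul_inv_cancel x hx y hy ih => exact hm x hx _ (hX y hy) ih

/-- Lamps at positions satisfying a predicate. -/
def Lp (Λ : Set G) (t : G) (P : ℤ → Prop) : Set G :=
  {y | ∃ j : ℤ, P j ∧ ∃ a ∈ Λ, y = t ^ j * a * (t ^ j)⁻¹}

theorem Lp_inv {Λ : Set G} {t : G} (hΛ : ∀ a ∈ Λ, a⁻¹ ∈ Λ) (P : ℤ → Prop) :
    ∀ y ∈ Lp Λ t P, y⁻¹ ∈ Lp Λ t P := by
  rintro y ⟨j, hj, a, ha, rfl⟩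
  exact ⟨j, hj, a⁻¹, hΛ a ha, by group⟩

/-- The window subgroups. -/
def NW (Λ : Set G) (t : G) (m : ℕ) : Subgroup G :=
  Subgroup.closure (Lp Λ t (fun j => -(m : ℤ) ≤ j ∧ j ≤ m))

/-- Upper lamps. -/
def UpG (Λ : Set G) (t : G) (m : ℕ) : Subgroup G :=
  Subgroup.closure (Lp Λ t (fun j => (m : ℤ) < j))

/-- Lower lamps. -/
def DnG (Λ : Set G) (t : G) (m : ℕ) : Subgroup G :=
  Subgroup.closure (Lp Λ t (fun j => j < -(m : ℤ)))

/-- The letters. -/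
def SG (Λ : Set G) (t : G) : Set G := insert 1 (insert t (insert t⁻¹ Λ))

/-- The boxes. -/
def Box (Λ : Set G) (t : G) (m : ℕ) : Set G :=
  {g | ∃ ν ∈ NW Λ t m, ∃ h : ℤ, -(m : ℤ) ≤ h ∧ h ≤ m ∧ g = ν * t ^ h}

theorem SG_one {Λ : Set G} {t : G} : (1 : G) ∈ SG Λ t := Or.inl rfl

theorem SG_t {Λ : Set G} {t : G} : t ∈ SG Λ t := Or.inr (Or.inl rfl)

theorem SG_tinv {Λ : Set G} {t : G} : t⁻¹ ∈ SG Λ t := Or.inr (Or.inr (Or.inl rfl))

theorem SG_lamp {Λ : Set G} {t a : G} (ha : a ∈ Λ) : a ∈ SG Λ t := Or.inr (Or.inr (Or.inr ha))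

theorem SG_inv {Λ : Set G} {t x : G} (hΛ : ∀ a ∈ Λ, a⁻¹ ∈ Λ) (h : x ∈ SG Λ t) :
    x⁻¹ ∈ SG Λ t := by
  rcases h with rfl | rfl | rfl | h
  · rw [inv_one]; exact SG_one
  · exact SG_tinv
  · rw [inv_inv]; exact SG_t
  · exact SG_lamp (hΛ _ h)

theorem SG_finite {Λ : Set G} (t : G) (h : Λ.Finite) : (SG Λ t).Finite :=
  ((h.insert _).insert _).insert _

theorem NW_mono {Λ : Set G} {t : G} {m m' : ℕ} (h : m ≤ m') : NW Λ t m ≤ NW Λ t m' := by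
  apply Subgroup.closure_mono
  rintro y ⟨j, ⟨hj1, hj2⟩, a, ha, rfl⟩
  exact ⟨j, ⟨by omega, by omega⟩, a, ha, rfl⟩

theorem lamp_mem_NW {Λ : Set G} {t a : G} (ha : a ∈ Λ) {m : ℕ} {j : ℤ} (h1 : -(m : ℤ) ≤ j)
    (h2 : j ≤ m) : t ^ j * a * (t ^ j)⁻¹ ∈ NW Λ t m :=
  Subgroup.subset_closure ⟨j, ⟨h1, h2⟩, a, ha, rfl⟩

theorem conj_mem_NW {Λ : Set G} {t : G} {m m' : ℕ} {ν : G} (hν : ν ∈ NW Λ t m) (x : ℤ)
    (hx : x.natAbs + m ≤ m') : t ^ x * ν * (t ^ x)⁻¹ ∈ NW Λ t m' := by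
  unfold NW at hν
  induction hν using Subgroup.closure_induction with
  | mem y hy =>
    obtain ⟨j, ⟨h1, h2⟩, a, ha, rfl⟩ := hy
    have e : t ^ x * (t ^ j * a * (t ^ j)⁻¹) * (t ^ x)⁻¹ = t ^ (x + j) * a * (t ^ (x + j))⁻¹ := by
      rw [zpow_add]; group
    rw [e]
    exact lamp_mem_NW ha (by omega) (by omega)
  | one => simp
  | mul y z _ _ h1 h2 =>
    have e : t ^ x * (y * z) * (t ^ x)⁻¹ = (t ^ x * y * (t ^ x)⁻¹) * (t ^ x * z * (t ^ x)⁻¹) := by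
      group
    rw [e]; exact Subgroup.mul_mem _ h1 h2
  | inv y _ h1 =>
    have e : t ^ x * y⁻¹ * (t ^ x)⁻¹ = (t ^ x * y * (t ^ x)⁻¹)⁻¹ := by group
    rw [e]; exact Subgroup.inv_mem _ h1

section main

variable {Λ : Set G} {t : G} (η : G →* Multiplicative ℤ) (hΛ : ∀ a ∈ Λ, a⁻¹ ∈ Λ)
  (ha : ∀ a ∈ Λ, η a = 1) (ht : η t = Multiplicative.ofAdd 1)
  (hgen : Subgroup.closure (SG Λ t) = ⊤) (hfin : ∀ m, (NW Λ t m : Set G).Finite)
  {a₀ : G} (ha₀ : a₀ ∈ Λ)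
  (hinj : ∀ i j : ℤ, t ^ i * a₀ * (t ^ i)⁻¹ = t ^ j * a₀ * (t ^ j)⁻¹ → i = j)

include ht in
theorem eta_zpow (h : ℤ) : η (t ^ h) = Multiplicative.ofAdd h := by
  rw [map_zpow, ht, ← ofAdd_zsmul]; simp

include ha in
theorem eta_lamp {a : G} (h : a ∈ Λ) (j : ℤ) : η (t ^ j * a * (t ^ j)⁻¹) = 1 := by
  rw [map_mul, map_mul, map_inv, ha a h]; simp

include ha in
theorem eta_closure {P : ℤ → Prop} {g : G}
    (hg : g ∈ Subgroup.closure (Lp Λ t P)) : η g = 1 := by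
  induction hg using Subgroup.closure_induction with
  | mem y hy =>
    obtain ⟨j, _, a, h, rfl⟩ := hy
    exact eta_lamp η ha h j
  | one => simp
  | mul y z _ _ h1 h2 => rw [map_mul, h1, h2, one_mul]
  | inv y _ h1 => rw [map_inv, h1, inv_one]

include ha in
theorem eta_NW {m : ℕ} {g : G} (hg : g ∈ NW Λ t m) : η g = 1 := eta_closure η ha hg

include hgen hΛ in
theorem exists_decomp (g : G) : ∃ k : ℕ, ∃ ν ∈ NW Λ t k, ∃ h : ℤ, g = ν * t ^ h := by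
  have hg : g ∈ Subgroup.closure (SG Λ t) := by rw [hgen]; trivial
  refine closure_ind_sym (p := fun g => ∃ k : ℕ, ∃ ν ∈ NW Λ t k, ∃ h : ℤ, g = ν * t ^ h)
    (fun x hx => SG_inv hΛ hx) ⟨0, 1, Subgroup.one_mem _, 0, by simp⟩ ?_ g hg
  rintro x _ y hy ⟨k, ν, hν, h, rfl⟩
  rcases hy with rfl | rfl | rfl | hy
  · exact ⟨k, ν, hν, h, by simp⟩
  · exact ⟨k, ν, hν, h + 1, by rw [zpow_add_one, mul_assoc]⟩
  · exact ⟨k, ν, hν, h - 1, by rw [zpow_sub_one, mul_assoc]⟩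
  · exact ⟨k + h.natAbs, ν * (t ^ h * y * (t ^ h)⁻¹),
      Subgroup.mul_mem _ (NW_mono (Nat.le_add_right _ _) hν)
        (lamp_mem_NW hy (by omega) (by omega)), h, by group⟩

include ha ht in
theorem box_iff {m : ℕ} {ν : G} (hν : η ν = 1) (h : ℤ) :
    ν * t ^ h ∈ Box Λ t m ↔ ν ∈ NW Λ t m ∧ -(m : ℤ) ≤ h ∧ h ≤ m := by
  constructor
  · rintro ⟨ν', hν', h', h1, h2, e⟩
    have e1 := congrArg η e
    rw [map_mul, map_mul, hν, eta_NW η ha hν', eta_zpow η ht, eta_zpow η ht, one_mul,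
      one_mul] at e1
    have e2 : h = h' := Multiplicative.ofAdd.injective e1
    subst e2
    have e3 : ν = ν' := mul_right_cancel e
    subst e3
    exact ⟨hν', h1, h2⟩
  · rintro ⟨h1, h2, h3⟩
    exact ⟨ν, h1, h, h2, h3, rfl⟩

/-- Abbreviation. -/
abbrev JB (Λ : Set G) (t : G) (m : ℕ) : G → G → Prop := Joined (SG Λ t) (Box Λ t m)ᶜ

include hΛ in
theorem JBsymm {m : ℕ} {x y : G} (h : JB Λ t m x y) : JB Λ t m y x :=
  Pool.Agent.Helper376.Lac.Joined.symm (fun _ hs => SG_inv hΛ hs) h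

theorem step_t (ν : G) (h : ℤ) : (ν * t ^ h)⁻¹ * (ν * t ^ (h + 1)) ∈ SG Λ t := by
  have : (ν * t ^ h)⁻¹ * (ν * t ^ (h + 1)) = t := by rw [zpow_add_one]; group
  rw [this]; exact SG_t

theorem vert_aux {m : ℕ} (ν : G) (lo hi : ℤ)
    (hX : ∀ h, lo ≤ h → h ≤ hi → ν * t ^ h ∈ (Box Λ t m)ᶜ) (h h' : ℤ) (h1 : lo ≤ h) (h2 : h ≤ h')
    (h3 : h' ≤ hi) : JB Λ t m (ν * t ^ h) (ν * t ^ h') := by
  have key : ∀ k : ℕ, h + k ≤ hi → JB Λ t m (ν * t ^ h) (ν * t ^ (h + k)) := by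
    intro k
    induction k with
    | zero =>
      intro _
      rw [Nat.cast_zero, add_zero]
      exact ReflTransGen.refl
    | succ k ih =>
      intro hk
      refine Pool.Agent.Helper376.Lac.Joined.trans (ih (by push_cast at hk; omega)) (Pool.Agent.Helper376.Lac.Joined.single (hX _ (by omega)
        (by push_cast at hk; omega)) (hX _ (by push_cast; omega) hk) ?_)
      have e : h + ((k + 1 : ℕ) : ℤ) = h + k + 1 := by push_cast; ring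
      rw [e]
      exact step_t ν _
  have := key (h' - h).toNat (by rw [Int.toNat_of_nonneg (by omega)]; omega)
  rw [Int.toNat_of_nonneg (by omega)] at this
  simpa using this

include ha ht hΛ in
theorem vert_gen {m : ℕ} {ν : G} (hν : η ν = 1) (h h' : ℤ)
    (hh : ν ∉ NW Λ t m ∨ ((m : ℤ) < h ∧ (m : ℤ) < h') ∨ (h < -(m : ℤ) ∧ h' < -(m : ℤ))) :
    JB Λ t m (ν * t ^ h) (ν * t ^ h') := by
  have hX : ∀ k : ℤ, min h h' ≤ k → k ≤ max h h' → ν * t ^ k ∈ (Box Λ t m)ᶜ := by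
    intro k h1 h2 hmem
    have := (box_iff η ha ht hν k).1 hmem
    rcases hh with hh | hh | hh
    · exact hh this.1
    · omega
    · omega
  rcases le_total h h' with h1 | h1
  · exact vert_aux ν _ _ hX h h' (by omega) h1 (by omega)
  · exact JBsymm hΛ (vert_aux ν _ _ hX h' h (by omega) h1 (by omega))

theorem horiz {m : ℕ} (ν : G) (j : ℤ) {a : G} (h : a ∈ Λ) (h1 : ν * t ^ j ∈ (Box Λ t m)ᶜ)
    (h2 : ν * (t ^ j * a * (t ^ j)⁻¹) * t ^ j ∈ (Box Λ t m)ᶜ) :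
    JB Λ t m (ν * t ^ j) (ν * (t ^ j * a * (t ^ j)⁻¹) * t ^ j) := by
  refine Pool.Agent.Helper376.Lac.Joined.single h1 h2 ?_
  have : (ν * t ^ j)⁻¹ * (ν * (t ^ j * a * (t ^ j)⁻¹) * t ^ j) = a := by group
  rw [this]; exact SG_lamp h

include ha in
theorem eta_mul_lamp {ν : G} (hν : η ν = 1) {a : G} (h : a ∈ Λ) (j : ℤ) :
    η (ν * (t ^ j * a * (t ^ j)⁻¹)) = 1 := by
  rw [map_mul, hν, eta_lamp η ha h, one_mul]

include ha ht in
theorem horiz_out {m : ℕ} {ν : G} (hν : η ν = 1) {a : G} (h : a ∈ Λ) (j : ℤ)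
    (hj : j < -(m : ℤ) ∨ (m : ℤ) < j) :
    JB Λ t m (ν * t ^ j) (ν * (t ^ j * a * (t ^ j)⁻¹) * t ^ j) := by
  apply horiz _ _ h
  · intro hmem
    have := ((box_iff η ha ht hν j).1 hmem).2
    omega
  · intro hmem
    have := ((box_iff η ha ht (eta_mul_lamp (t := t) η ha hν h j) j).1 hmem).2
    omega

include ha ht hΛ in
theorem up_move {m : ℕ} {ν : G} (hν : η ν = 1) {μ : G} (hμ : μ ∈ UpG Λ t m) :
    η (ν * μ) = 1 ∧ JB Λ t m (ν * t ^ ((m : ℤ) + 1)) (ν * μ * t ^ ((m : ℤ) + 1)) := by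
  refine closure_ind_sym (p := fun μ => η (ν * μ) = 1 ∧
    JB Λ t m (ν * t ^ ((m : ℤ) + 1)) (ν * μ * t ^ ((m : ℤ) + 1))) (Lp_inv hΛ _)
    (by simpa using ⟨hν, ReflTransGen.refl⟩) ?_ μ hμ
  rintro x _ y ⟨j, hj, a, h, rfl⟩ ⟨ih1, ih2⟩
  have e1 := eta_mul_lamp (t := t) η ha ih1 h j
  rw [← mul_assoc ν x]
  refine ⟨e1, ?_⟩
  have s1 := vert_gen η hΛ ha ht (m := m) ih1 ((m : ℤ) + 1) j (Or.inr (Or.inl ⟨by omega, hj⟩))
  have s2 := horiz_out η ha ht ih1 (m := m) h j (Or.inr hj)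
  have s3 := vert_gen η hΛ ha ht (m := m) e1 j ((m : ℤ) + 1) (Or.inr (Or.inl ⟨hj, by omega⟩))
  exact ((ih2.trans s1).trans s2).trans s3

include ha ht hΛ in
theorem dn_move {m : ℕ} {ν : G} (hν : η ν = 1) {μ : G} (hμ : μ ∈ DnG Λ t m) :
    η (ν * μ) = 1 ∧ JB Λ t m (ν * t ^ (-(m : ℤ) - 1)) (ν * μ * t ^ (-(m : ℤ) - 1)) := by
  refine closure_ind_sym (p := fun μ => η (ν * μ) = 1 ∧
    JB Λ t m (ν * t ^ (-(m : ℤ) - 1)) (ν * μ * t ^ (-(m : ℤ) - 1))) (Lp_inv hΛ _)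
    (by simpa using ⟨hν, ReflTransGen.refl⟩) ?_ μ hμ
  rintro x _ y ⟨j, hj, a, h, rfl⟩ ⟨ih1, ih2⟩
  have e1 := eta_mul_lamp (t := t) η ha ih1 h j
  rw [← mul_assoc ν x]
  refine ⟨e1, ?_⟩
  have s1 := vert_gen η hΛ ha ht (m := m) ih1 (-(m : ℤ) - 1) j (Or.inr (Or.inr ⟨by omega, hj⟩))
  have s2 := horiz_out η ha ht ih1 (m := m) h j (Or.inl hj)
  have s3 := vert_gen η hΛ ha ht (m := m) e1 j (-(m : ℤ) - 1) (Or.inr (Or.inr ⟨hj, by omega⟩))
  exact ((ih2.trans s1).trans s2).trans s3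

include ha ht hΛ in
theorem in_move {m : ℕ} {ν : G} (hν : η ν = 1) (hνW : ν ∉ NW Λ t m) {μ : G}
    (hμ : μ ∈ NW Λ t m) :
    η (ν * μ) = 1 ∧ JB Λ t m ν (ν * μ) := by
  refine closure_ind_sym (p := fun μ => η (ν * μ) = 1 ∧ JB Λ t m ν (ν * μ)) (Lp_inv hΛ _)
    (by simpa using ⟨hν, ReflTransGen.refl⟩) ?_ μ hμ
  rintro x hx y ⟨j, ⟨hj1, hj2⟩, a, h, rfl⟩ ⟨ih1, ih2⟩
  have hx' : x ∈ NW Λ t m := hx
  have e1 := eta_mul_lamp (t := t) η ha ih1 h j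
  have hw1 : ν * x ∉ NW Λ t m := fun h => hνW (by
    have := Subgroup.mul_mem _ h (Subgroup.inv_mem _ hx')
    rwa [mul_inv_cancel_right] at this)
  have hw2 : ν * x * (t ^ j * a * (t ^ j)⁻¹) ∉ NW Λ t m := fun h' => hw1 (by
    have := Subgroup.mul_mem _ h' (Subgroup.inv_mem _ (lamp_mem_NW h hj1 hj2))
    rwa [mul_inv_cancel_right] at this)
  rw [← mul_assoc ν x]
  refine ⟨e1, ?_⟩
  have s1 := vert_gen η hΛ ha ht (m := m) ih1 0 j (Or.inl hw1)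
  have s2 : JB Λ t m (ν * x * t ^ j) (ν * x * (t ^ j * a * (t ^ j)⁻¹) * t ^ j) := by
    apply horiz _ _ h
    · intro hmem; exact hw1 ((box_iff η ha ht ih1 j).1 hmem).1
    · intro hmem; exact hw2 ((box_iff η ha ht e1 j).1 hmem).1
  have s3 := vert_gen η hΛ ha ht (m := m) e1 j 0 (Or.inl hw2)
  rw [zpow_zero, mul_one] at s1 s3
  exact ((ih2.trans s1).trans s2).trans s3

include ha ht hfin hΛ in
theorem kernel_connected {m : ℕ} {x y : G} (hx : η x = 1) (hxW : x ∉ NW Λ t m)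
    (hyW : y ∉ NW Λ t m) {m' : ℕ} (hx' : x ∈ NW Λ t m') (hy' : y ∈ NW Λ t m') :
    JB Λ t m x y := by
  have hM : ∀ μ ∈ ((UpG Λ t m : Set G) ∪ (DnG Λ t m : Set G)),
      μ⁻¹ ∈ ((UpG Λ t m : Set G) ∪ (DnG Λ t m : Set G)) := by
    rintro μ (h | h)
    · exact Or.inl (Subgroup.inv_mem _ h)
    · exact Or.inr (Subgroup.inv_mem _ h)
  have hle : NW Λ t m' ≤ Subgroup.closure ((NW Λ t m : Set G) ∪
      ((UpG Λ t m : Set G) ∪ (DnG Λ t m : Set G))) := by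
    conv_lhs => unfold NW
    rw [Subgroup.closure_le]
    rintro z ⟨j, ⟨hj1, hj2⟩, a, ha', rfl⟩
    apply Subgroup.subset_closure
    rcases lt_or_ge j (-(m : ℤ)) with h | h
    · exact Or.inr (Or.inr (Subgroup.subset_closure ⟨j, h, a, ha', rfl⟩))
    · rcases le_or_gt j m with h2 | h2
      · exact Or.inl (lamp_mem_NW ha' h h2)
      · exact Or.inr (Or.inl (Subgroup.subset_closure ⟨j, h2, a, ha', rfl⟩))
  have := finite_lemma (NW Λ t m') (NW Λ t m) (hfin m') _ hM hle hx' hxW hy' hyW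
  have key : ∀ z, ReflTransGen (fun g h => g ∉ NW Λ t m ∧ h ∉ NW Λ t m ∧ (g⁻¹ * h ∈ NW Λ t m ∨
      g⁻¹ * h ∈ ((UpG Λ t m : Set G) ∪ (DnG Λ t m : Set G)))) x z → η z = 1 ∧ JB Λ t m x z := by
    intro z hz
    induction hz with
    | refl => exact ⟨hx, ReflTransGen.refl⟩
    | @tail u v _ huv ih =>
      obtain ⟨hu, hv, hor⟩ := huv
      obtain ⟨ih1, ih2⟩ := ih
      have e : v = u * (u⁻¹ * v) := by group
      rcases hor with h | h | h
      · have := in_move η hΛ ha ht ih1 hu h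
        rw [← e] at this
        exact ⟨this.1, ih2.trans this.2⟩
      · have := up_move η hΛ ha ht ih1 h
        rw [← e] at this
        have s1 := vert_gen η hΛ ha ht (m := m) ih1 0 ((m : ℤ) + 1) (Or.inl hu)
        have s3 := vert_gen η hΛ ha ht (m := m) this.1 ((m : ℤ) + 1) 0 (Or.inl hv)
        rw [zpow_zero, mul_one] at s1 s3
        exact ⟨this.1, ((ih2.trans s1).trans this.2).trans s3⟩
      · have := dn_move η hΛ ha ht ih1 h
        rw [← e] at this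
        have s1 := vert_gen η hΛ ha ht (m := m) ih1 0 (-(m : ℤ) - 1) (Or.inl hu)
        have s3 := vert_gen η hΛ ha ht (m := m) this.1 (-(m : ℤ) - 1) 0 (Or.inl hv)
        rw [zpow_zero, mul_one] at s1 s3
        exact ⟨this.1, ((ih2.trans s1).trans this.2).trans s3⟩
  exact (key y this).2

include hfin hinj in
theorem exists_far (m : ℕ) {X : Set ℤ} (hX : X.Infinite) :
    ∃ j ∈ X, t ^ j * a₀ * (t ^ j)⁻¹ ∉ NW Λ t m := by
  by_contra hcon
  push Not at hcon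
  apply hX
  apply Set.Finite.of_finite_image (f := fun j : ℤ => t ^ j * a₀ * (t ^ j)⁻¹)
  · refine (hfin m).subset ?_
    rintro _ ⟨j, hj, rfl⟩
    exact hcon j hj
  · intro i _ j _ hij
    exact hinj i j hij

include ha ht hgen hfin hinj hΛ ha₀ in
theorem to_kernel (m : ℕ) (x : G) (hx : x ∉ Box Λ t m) :
    ∃ ν, η ν = 1 ∧ ν ∉ NW Λ t m ∧ (∃ k, ν ∈ NW Λ t k) ∧ JB Λ t m x ν := by
  obtain ⟨k, ν, hν, h, rfl⟩ := exists_decomp hΛ hgen x
  have hη := eta_NW η ha hν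
  by_cases hW : ν ∈ NW Λ t m
  · have hh : h < -(m : ℤ) ∨ (m : ℤ) < h := by
      by_contra hcon
      push Not at hcon
      exact hx ((box_iff η ha ht hη h).2 ⟨hW, hcon.1, hcon.2⟩)
    obtain ⟨j, hj, hjW⟩ : ∃ j : ℤ, (((m : ℤ) < h ∧ (m : ℤ) < j) ∨ (h < -(m : ℤ) ∧ j < -(m : ℤ))) ∧
        t ^ j * a₀ * (t ^ j)⁻¹ ∉ NW Λ t m := by
      rcases hh with hh | hh
      · obtain ⟨j, hj, hjW⟩ := exists_far hfin hinj m (Set.Iio_infinite (-(m : ℤ)))
        exact ⟨j, Or.inr ⟨hh, hj⟩, hjW⟩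
      · obtain ⟨j, hj, hjW⟩ := exists_far hfin hinj m (Set.Ioi_infinite (m : ℤ))
        exact ⟨j, Or.inl ⟨hh, hj⟩, hjW⟩
    have hW2 : ν * (t ^ j * a₀ * (t ^ j)⁻¹) ∉ NW Λ t m := fun h' => hjW (by
      have := Subgroup.mul_mem _ (Subgroup.inv_mem _ hW) h'; simpa using this)
    have e1 := eta_mul_lamp (t := t) η ha hη ha₀ j
    refine ⟨_, e1, hW2, ⟨k + j.natAbs, Subgroup.mul_mem _ (NW_mono (Nat.le_add_right _ _) hν)
      (lamp_mem_NW ha₀ (by omega) (by omega))⟩, ?_⟩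
    have s1 := vert_gen η hΛ ha ht (m := m) hη h j (Or.inr hj)
    have s2 := horiz_out η ha ht hη (m := m) ha₀ j (by omega)
    have s3 := vert_gen η hΛ ha ht (m := m) e1 j 0 (Or.inl hW2)
    rw [zpow_zero, mul_one] at s3
    exact (s1.trans s2).trans s3
  · refine ⟨ν, hη, hW, ⟨k, hν⟩, ?_⟩
    have := vert_gen η hΛ ha ht (m := m) hη h 0 (Or.inl hW)
    rwa [zpow_zero, mul_one] at this

include ha ht hgen hfin hinj hΛ ha₀ in
/-- The complement of a box is connected. -/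
theorem box_connected (m : ℕ) (x y : G) (hx : x ∉ Box Λ t m) (hy : y ∉ Box Λ t m) :
    JB Λ t m x y := by
  obtain ⟨u, hu, huW, ⟨k, hk⟩, h1⟩ := to_kernel η hΛ ha ht hgen hfin ha₀ hinj m x hx
  obtain ⟨v, hv, hvW, ⟨l, hl⟩, h2⟩ := to_kernel η hΛ ha ht hgen hfin ha₀ hinj m y hy
  have h3 := kernel_connected η hΛ ha ht hfin hu huW hvW (m' := k + l)
    (NW_mono (Nat.le_add_right _ _) hk) (NW_mono (Nat.le_add_left _ _) hl)
  exact (h1.trans h3).trans (JBsymm hΛ h2)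

include hgen hΛ in
theorem mem_box (g : G) : ∃ m, g ∈ Box Λ t m := by
  obtain ⟨k, ν, hν, h, rfl⟩ := exists_decomp hΛ hgen g
  exact ⟨k + h.natAbs, ν, NW_mono (Nat.le_add_right _ _) hν, h, by omega, by omega, rfl⟩

theorem box_mono {m m' : ℕ} (h : m ≤ m') : Box Λ t m ⊆ Box Λ t m' := by
  rintro g ⟨ν, hν, h', h1, h2, rfl⟩
  exact ⟨ν, NW_mono h hν, h', by omega, by omega, rfl⟩

include hgen hΛ in
theorem finite_subset_box {X : Set G} (hX : X.Finite) : ∃ m, X ⊆ Box Λ t m := by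
  choose f hf using (mem_box hΛ hgen)
  obtain ⟨m, hm⟩ := (hX.image f).bddAbove
  exact ⟨m, fun x hx => box_mono (hm ⟨x, hx, rfl⟩) (hf x)⟩

theorem box_finite {m : ℕ} (hfin : (NW Λ t m : Set G).Finite) : (Box Λ t m).Finite := by
  refine (Set.Finite.image2 (fun ν (h : ℤ) => ν * t ^ h) hfin
    (Set.finite_Icc (-(m : ℤ)) m)).subset ?_
  rintro g ⟨ν, hν, h, h1, h2, rfl⟩
  exact ⟨ν, hν, h, ⟨h1, h2⟩, rfl⟩

end main

end Pool.Agent.H388Z.RD
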