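import Mathlib
import Pool.Agent.H388Z.RD.Ends

namespace Pool.Agent.H388Z.RD

open Pool.Agent.Helper376.DL (Ball ball_succ ball_mono ball_add ball_mono_succ)

/-- Configurations of lamps on a cycle (or the line) together with a cursor. -/
@[ext] structure Wr (n : ℕ) (D : Type) where
  f : ZMod n → D
  x : ℤ

section wr

variable {n : ℕ} {D : Type} [Group D]

instance : Mul (Wr n D) := ⟨fun g h => ⟨fun z => g.f z * h.f (z - g.x), g.x + h.x⟩⟩
instance : One (Wr n D) := ⟨⟨fun _ => 1, 0⟩⟩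
instance : Inv (Wr n D) := ⟨fun g => ⟨fun z => (g.f (z + g.x))⁻¹, -g.x⟩⟩

@[simp] theorem Wr.mul_f (g h : Wr n D) (z : ZMod n) : (g * h).f z = g.f z * h.f (z - g.x) := rfl
@[simp] theorem Wr.mul_x (g h : Wr n D) : (g * h).x = g.x + h.x := rfl
@[simp] theorem Wr.one_f (z : ZMod n) : (1 : Wr n D).f z = 1 := rfl
@[simp] theorem Wr.one_x : (1 : Wr n D).x = 0 := rfl
@[simp] theorem Wr.inv_f (g : Wr n D) (z : ZMod n) : (g⁻¹).f z = (g.f (z + g.x))⁻¹ := rfl
@[simp] theorem Wr.inv_x (g : Wr n D) : (g⁻¹).x = -g.x := rfl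

instance : Group (Wr n D) := Group.ofLeftAxioms
  (fun g h k => by
    ext z
    · simp [mul_assoc, sub_sub]
    · simp [add_assoc])
  (fun g => by ext z <;> simp)
  (fun g => by ext z <;> simp)

/-- One lamp. -/
def pt (z : ZMod n) (d : D) : Wr n D := ⟨fun w => if w = z then d else 1, 0⟩

/-- The shift. -/
def sh : Wr n D := ⟨fun _ => 1, 1⟩

@[simp] theorem pt_f (z w : ZMod n) (d : D) : (pt z d).f w = if w = z then d else 1 := rfl
@[simp] theorem pt_x (z : ZMod n) (d : D) : (pt z d).x = 0 := rfl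

theorem pt_inv (z : ZMod n) (d : D) : (pt z d)⁻¹ = pt z d⁻¹ := by
  ext w
  · simp only [Wr.inv_f, pt_f, pt_x, Int.cast_zero, add_zero]
    split_ifs <;> simp
  · simp

theorem pt_mul (z : ZMod n) (d e : D) : pt z d * pt z e = pt z (d * e) := by
  ext w
  · simp only [Wr.mul_f, pt_f, pt_x, Int.cast_zero, sub_zero]
    split_ifs <;> simp
  · simp

theorem pt_one (z : ZMod n) : pt z (1 : D) = 1 := by
  ext w <;> simp

theorem sh_zpow (j : ℤ) : (sh : Wr n D) ^ j = ⟨fun _ => 1, j⟩ := by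
  induction j using Int.induction_on with
  | zero => rfl
  | succ j ih => rw [zpow_add_one, ih]; ext z <;> simp [sh]
  | pred j ih => rw [zpow_sub_one, ih]; ext z <;> simp [sh]; ring

theorem sh_conj (j : ℤ) (z : ZMod n) (d : D) :
    (sh : Wr n D) ^ j * pt z d * ((sh : Wr n D) ^ j)⁻¹ = pt (z + (j : ZMod n)) d := by
  rw [sh_zpow]
  ext w
  · simp [sub_eq_iff_eq_add]
  · simp

/-- The cursor as a homomorphism. -/
def curs (n : ℕ) (D : Type) [Group D] : Wr n D →* Multiplicative ℤ where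
  toFun g := Multiplicative.ofAdd g.x
  map_one' := rfl
  map_mul' _ _ := rfl

end wr

section lev

variable {G : Type} [Group G]

/-- The lamp letters. -/
def Lam (α β : G) : Set G := {α, β, α⁻¹, β⁻¹}

theorem Lam_inv {α β : G} : ∀ a ∈ Lam α β, a⁻¹ ∈ Lam α β := by
  rintro a (rfl | rfl | rfl | rfl) <;> simp [Lam]

theorem Lam_al {α β : G} : α ∈ Lam α β := Or.inl rfl

theorem Lam_be {α β : G} : β ∈ Lam α β := Or.inr (Or.inl rfl)

theorem Lam_finite (α β : G) : (Lam α β).Finite := by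
  unfold Lam
  exact Set.toFinite _

/-- A homomorphism to a level. -/
structure IsLev (α β τ : G) {n : ℕ} {D : Type} [Group D] (ρ : G →* Wr n D) (k : ℤ) (a b : D) :
    Prop where
  al : ρ α = pt 0 a
  be : ρ β = pt (-(k : ZMod n)) b
  ta : ρ τ = sh

variable {α β τ : G} {n n' : ℕ} {D D' : Type} [Group D] [Group D'] {ρ : G →* Wr n D}
  {ρ' : G →* Wr n' D'} {k k' : ℤ} {a b : D} {a' b' : D'}

theorem IsLev.tpow (h : IsLev α β τ ρ k a b) (j : ℤ) : ρ (τ ^ j) = ⟨fun _ => 1, j⟩ := by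
  rw [map_zpow, h.ta, sh_zpow]

theorem IsLev.alp (h : IsLev α β τ ρ k a b) (j : ℤ) :
    ρ (τ ^ j * α * (τ ^ j)⁻¹) = pt (j : ZMod n) a := by
  rw [map_mul, map_mul, map_inv, map_zpow, h.ta, h.al, sh_conj, zero_add]

theorem IsLev.bep (h : IsLev α β τ ρ k a b) (j : ℤ) :
    ρ (τ ^ j * β * (τ ^ j)⁻¹) = pt ((j - k : ℤ) : ZMod n) b := by
  rw [map_mul, map_mul, map_inv, map_zpow, h.ta, h.be, sh_conj]
  congr 1
  push_cast; ring

theorem IsLev.nw_x (h : IsLev α β τ ρ k a b) {R : ℕ} {ν : G} (hν : ν ∈ NW (Lam α β) τ R) :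
    (ρ ν).x = 0 := by
  have := eta_NW ((curs n D).comp ρ) (Λ := Lam α β) (t := τ) (by
    rintro u (rfl | rfl | rfl | rfl)
    · simp [curs, h.al]
    · simp [curs, h.be]
    · rw [map_inv]; simp [curs, h.al]
    · rw [map_inv]; simp [curs, h.be]) hν
  simpa [curs] using this

theorem two_lev (h : IsLev α β τ ρ k a b) (h' : IsLev α β τ ρ' k' a' b') (H : Subgroup (D × D'))
    (z : ZMod n) (z' : ZMod n') (R : ℕ)
    (hA : ∀ p : ℤ, -(R : ℤ) ≤ p → p ≤ R →
      ((pt (p : ZMod n) a).f z, (pt (p : ZMod n') a').f z') ∈ H)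
    (hB : ∀ p : ℤ, -(R : ℤ) ≤ p → p ≤ R →
      ((pt ((p - k : ℤ) : ZMod n) b).f z, (pt ((p - k' : ℤ) : ZMod n') b').f z') ∈ H)
    {ν : G} (hν : ν ∈ NW (Lam α β) τ R) : ((ρ ν).f z, (ρ' ν).f z') ∈ H := by
  have hinv : ∀ y ∈ NW (Lam α β) τ R, ((ρ y).f z, (ρ' y).f z') ∈ H →
      ((ρ y⁻¹).f z, (ρ' y⁻¹).f z') ∈ H := by
    intro y hy h1
    have := H.inv_mem h1
    simpa [h.nw_x hy, h'.nw_x hy] using this
  have hν' := hν
  unfold NW at hν'
  induction hν' using Subgroup.closure_induction with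
  | mem y hy =>
    obtain ⟨j, ⟨h1, h2⟩, u, hu, rfl⟩ := hy
    have eA : ((ρ (τ ^ j * α * (τ ^ j)⁻¹)).f z, (ρ' (τ ^ j * α * (τ ^ j)⁻¹)).f z') ∈ H := by
      rw [h.alp, h'.alp]; exact hA j h1 h2
    have eB : ((ρ (τ ^ j * β * (τ ^ j)⁻¹)).f z, (ρ' (τ ^ j * β * (τ ^ j)⁻¹)).f z') ∈ H := by
      rw [h.bep, h'.bep]; exact hB j h1 h2
    rcases hu with rfl | rfl | rfl | rfl
    · exact eA
    · exact eB
    · have e : τ ^ j * α⁻¹ * (τ ^ j)⁻¹ = (τ ^ j * α * (τ ^ j)⁻¹)⁻¹ := by group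
      rw [e]; exact hinv _ (lamp_mem_NW Lam_al h1 h2) eA
    · have e : τ ^ j * β⁻¹ * (τ ^ j)⁻¹ = (τ ^ j * β * (τ ^ j)⁻¹)⁻¹ := by group
      rw [e]; exact hinv _ (lamp_mem_NW Lam_be h1 h2) eB
  | one => rw [map_one, map_one]; exact H.one_mem
  | mul y w hy hw h1 h2 =>
    have := H.mul_mem (h1 hy) (h2 hw)
    simpa [h.nw_x hy, h'.nw_x hy] using this
  | inv y hy h1 => exact hinv y hy (h1 hy)

theorem one_lev (h : IsLev α β τ ρ k a b) (H : Subgroup D) (z : ZMod n) (R : ℕ)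
    (hA : ∀ p : ℤ, -(R : ℤ) ≤ p → p ≤ R → z = (p : ZMod n) → a ∈ H)
    (hB : ∀ p : ℤ, -(R : ℤ) ≤ p → p ≤ R → z = ((p - k : ℤ) : ZMod n) → b ∈ H)
    {ν : G} (hν : ν ∈ NW (Lam α β) τ R) : (ρ ν).f z ∈ H := by
  have := two_lev h h (H.prod ⊤) z z R (by
    intro p h1 h2
    rw [Subgroup.mem_prod]
    refine ⟨?_, trivial⟩
    simp only [pt_f]
    split_ifs with h3
    · exact hA p h1 h2 h3
    · exact H.one_mem) (by
    intro p h1 h2
    rw [Subgroup.mem_prod]
    refine ⟨?_, trivial⟩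
    simp only [pt_f]
    split_ifs with h3
    · exact hB p h1 h2 h3
    · exact H.one_mem) hν
  exact (Subgroup.mem_prod.1 this).1

theorem cast_inj {n : ℕ} {p q : ℤ} (h : (p : ZMod n) = (q : ZMod n)) (h1 : p - q < n)
    (h2 : q - p < n) : p = q := by
  rw [ZMod.intCast_eq_intCast_iff_dvd_sub] at h
  obtain ⟨c, hc⟩ := h
  have hc0 : c = 0 := by
    by_contra hne
    rcases lt_or_gt_of_ne hne with h3 | h3
    · nlinarith
    · nlinarith
  rw [hc0] at hc
  omega

/-- The group of order two. -/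
abbrev C2 : Type := Multiplicative (ZMod 2)

/-- Its generator. -/
def c2 : C2 := Multiplicative.ofAdd 1

theorem C2_cases (u : C2) : u = 1 ∨ u = c2 := by revert u; decide

theorem c2_ne : c2 ≠ 1 := by decide

theorem c2_sq : c2 * c2 = 1 := by decide

/-- The homomorphism given by an involution. -/
def invHom (a : D) (ha : a * a = 1) : C2 →* D where
  toFun u := if u = 1 then 1 else a
  map_one' := by simp
  map_mul' u v := by
    rcases C2_cases u with rfl | rfl <;> rcases C2_cases v with rfl | rfl <;>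
      simp [c2_ne, c2_sq, ha]

theorem invHom_c2 (a : D) (ha : a * a = 1) : invHom a ha c2 = a := by
  simp [invHom, c2_ne]

/-- A level with far apart letters is invisible on short windows. -/
theorem invisible {lam : G →* Wr n' (C2 × C2)}
    (h0 : ∀ p q : ℤ, (p : ZMod n') = (q : ZMod n') → p = q) (hl : IsLev α β τ lam 0 (c2, 1) (1, c2))
    (h : IsLev α β τ ρ k a b) (ha : a * a = 1) (hb : b * b = 1) (R : ℕ)
    (hk : 2 * (R : ℤ) < k) (hn : 2 * (R : ℤ) + k < n) {ν : G} (hν : ν ∈ NW (Lam α β) τ R)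
    (h1 : lam ν = 1) : ρ ν = 1 := by
  ext z
  swap
  · exact h.nw_x hν
  rw [Wr.one_f]
  by_cases hz : ∃ p : ℤ, -(R : ℤ) ≤ p ∧ p ≤ R ∧ z = (p : ZMod n)
  · obtain ⟨p, hp1, hp2, rfl⟩ := hz
    have := two_lev h hl (MonoidHom.eqLocus (MonoidHom.fst D (C2 × C2))
      (((invHom a ha).comp (MonoidHom.fst C2 C2)).comp (MonoidHom.snd D (C2 × C2))))
      (p : ZMod n) (p : ZMod n') R (by
        intro q hq1 hq2
        change (pt (q : ZMod n) a).f p = invHom a ha ((pt (q : ZMod n') (c2, (1 : C2))).f p).1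
        simp only [pt_f]
        by_cases e : p = q
        · subst e; simp [invHom_c2]
        · have e1 : ¬ (p : ZMod n) = q := fun h' => e (cast_inj h' (by omega) (by omega))
          have e2 : ¬ (p : ZMod n') = q := fun h' => e (h0 _ _ h')
          rw [if_neg e1, if_neg e2]; simp) (by
        intro q hq1 hq2
        change (pt ((q - k : ℤ) : ZMod n) b).f p =
          invHom a ha ((pt ((q - 0 : ℤ) : ZMod n') ((1 : C2), c2)).f p).1
        simp only [pt_f]
        have e1 : ¬ (p : ZMod n) = ((q - k : ℤ) : ZMod n) := fun h' => by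
          have := cast_inj h' (by omega) (by omega)
          omega
        rw [if_neg e1]
        split_ifs <;> simp) hν
    have h2 : (ρ ν).f p = invHom a ha ((lam ν).f p).1 := this
    rw [h2, h1]; simp
  by_cases hz' : ∃ p : ℤ, -(R : ℤ) ≤ p ∧ p ≤ R ∧ z = ((p - k : ℤ) : ZMod n)
  · obtain ⟨p, hp1, hp2, rfl⟩ := hz'
    have := two_lev h hl (MonoidHom.eqLocus (MonoidHom.fst D (C2 × C2))
      (((invHom b hb).comp (MonoidHom.snd C2 C2)).comp (MonoidHom.snd D (C2 × C2))))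
      ((p - k : ℤ) : ZMod n) (p : ZMod n') R (by
        intro q hq1 hq2
        change (pt (q : ZMod n) a).f ((p - k : ℤ) : ZMod n) =
          invHom b hb ((pt (q : ZMod n') (c2, (1 : C2))).f p).2
        simp only [pt_f]
        have e1 : ¬ ((p - k : ℤ) : ZMod n) = (q : ZMod n) := fun h' => hz ⟨q, hq1, hq2, h'⟩
        rw [if_neg e1]
        split_ifs <;> simp) (by
        intro q hq1 hq2
        change (pt ((q - k : ℤ) : ZMod n) b).f ((p - k : ℤ) : ZMod n) =
          invHom b hb ((pt ((q - 0 : ℤ) : ZMod n') ((1 : C2), c2)).f p).2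
        simp only [pt_f]
        by_cases e : p = q
        · subst e; simp [invHom_c2]
        · have e1 : ¬ ((p - k : ℤ) : ZMod n) = ((q - k : ℤ) : ZMod n) := fun h' => by
            have := cast_inj h' (by omega) (by omega)
            omega
          have e2 : ¬ (p : ZMod n') = ((q - 0 : ℤ) : ZMod n') := fun h' => by
            have h3 : p = q - 0 := h0 _ _ h'
            omega
          rw [if_neg e1, if_neg e2]; simp) hν
    have h2 : (ρ ν).f ((p - k : ℤ) : ZMod n) = invHom b hb ((lam ν).f p).2 := this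
    rw [h2, h1]; simp
  · exact Subgroup.mem_bot.1 (one_lev h ⊥ z R (fun p h1 h2 h3 => absurd ⟨p, h1, h2, h3⟩ hz)
      (fun p h1 h2 h3 => absurd ⟨p, h1, h2, h3⟩ hz') hν)

/-- A long enough level sees the lamplighter quotient. -/
theorem visible {lam : G →* Wr n' (C2 × C2)}
    (h0 : ∀ p q : ℤ, (p : ZMod n') = (q : ZMod n') → p = q) (hl : IsLev α β τ lam 0 (c2, 1) (1, c2))
    (h : IsLev α β τ ρ k a b) (χ ψ : D →* C2) (h1 : χ a = c2) (h2 : χ b = 1) (h3 : ψ a = 1)
    (h4 : ψ b = c2) (R : ℕ) (hn : 2 * (R : ℤ) < n) {ν : G} (hν : ν ∈ NW (Lam α β) τ R)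
    (hρ : ρ ν = 1) : lam ν = 1 := by
  apply Wr.ext
  swap
  · exact hl.nw_x hν
  funext z
  rw [Wr.one_f]
  obtain ⟨p, rfl⟩ : ∃ p : ℤ, z = (p : ZMod n') := by
    obtain ⟨p, hp⟩ := ZMod.intCast_surjective z
    exact ⟨p, hp.symm⟩
  by_cases hp : -(R : ℤ) ≤ p ∧ p ≤ R
  · obtain ⟨hp1, hp2⟩ := hp
    have eA := two_lev h hl (MonoidHom.eqLocus (χ.comp (MonoidHom.fst D (C2 × C2)))
      ((MonoidHom.fst C2 C2).comp (MonoidHom.snd D (C2 × C2))))
      (p : ZMod n) (p : ZMod n') R (by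
        intro q hq1 hq2
        change χ ((pt (q : ZMod n) a).f p) = ((pt (q : ZMod n') (c2, (1 : C2))).f p).1
        simp only [pt_f]
        by_cases e : p = q
        · subst e; simp [h1]
        · have e1 : ¬ (p : ZMod n) = q := fun h' => e (cast_inj h' (by omega) (by omega))
          have e2 : ¬ (p : ZMod n') = q := fun h' => e (h0 _ _ h')
          rw [if_neg e1, if_neg e2]; simp) (by
        intro q hq1 hq2
        change χ ((pt ((q - k : ℤ) : ZMod n) b).f p) =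
          ((pt ((q - 0 : ℤ) : ZMod n') ((1 : C2), c2)).f p).1
        simp only [pt_f]
        split_ifs <;> simp [h2]) hν
    have eB := two_lev h hl (MonoidHom.eqLocus (ψ.comp (MonoidHom.fst D (C2 × C2)))
      ((MonoidHom.snd C2 C2).comp (MonoidHom.snd D (C2 × C2))))
      ((p - k : ℤ) : ZMod n) (p : ZMod n') R (by
        intro q hq1 hq2
        change ψ ((pt (q : ZMod n) a).f ((p - k : ℤ) : ZMod n)) =
          ((pt (q : ZMod n') (c2, (1 : C2))).f p).2
        simp only [pt_f]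
        split_ifs <;> simp [h3]) (by
        intro q hq1 hq2
        change ψ ((pt ((q - k : ℤ) : ZMod n) b).f ((p - k : ℤ) : ZMod n)) =
          ((pt ((q - 0 : ℤ) : ZMod n') ((1 : C2), c2)).f p).2
        simp only [pt_f]
        by_cases e : p = q
        · subst e; simp [h4]
        · have e1 : ¬ ((p - k : ℤ) : ZMod n) = ((q - k : ℤ) : ZMod n) := fun h' => by
            have := cast_inj h' (by omega) (by omega)
            omega
          have e2 : ¬ (p : ZMod n') = ((q - 0 : ℤ) : ZMod n') := fun h' => by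
            have h3 : p = q - 0 := h0 _ _ h'
            omega
          rw [if_neg e1, if_neg e2]; simp) hν
    have fA : χ ((ρ ν).f p) = ((lam ν).f p).1 := eA
    have fB : ψ ((ρ ν).f ((p - k : ℤ) : ZMod n)) = ((lam ν).f p).2 := eB
    rw [hρ] at fA fB
    ext
    · rw [← fA]; simp
    · rw [← fB]; simp
  · refine Subgroup.mem_bot.1 (one_lev hl ⊥ _ R (fun q h1 h2 h3 => ?_) (fun q h1 h2 h3 => ?_) hν)
    · have h4 : p = q := h0 _ _ h3
      omega
    · have h4 : p = q - 0 := h0 _ _ h3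
      omega

end lev

end Pool.Agent.H388Z.RD
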