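import Mathlib
import Pool.Agent.H388Z.RD.Wr

namespace Pool.Agent.H388Z.RD

open DihedralGroup

variable {m : ℕ}

/-- The two reflections. -/
def gn (m : ℕ) : Bool → DihedralGroup m
  | false => sr 0
  | true => sr 1

theorem gn_sq (Y : Bool) : gn m Y * gn m Y = 1 := by
  cases Y <;> simp [gn]

theorem gn_inv (Y : Bool) : (gn m Y)⁻¹ = gn m Y :=
  inv_eq_of_mul_eq_one_right (gn_sq Y)

/-- The subgroups of order two. -/
def Hs (m : ℕ) (Y : Bool) : Subgroup (DihedralGroup m) where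
  carrier := {d | d = 1 ∨ d = gn m Y}
  one_mem' := Or.inl rfl
  mul_mem' := by
    rintro u v (rfl | rfl) (rfl | rfl)
    · left; simp
    · right; simp
    · right; simp
    · left; exact gn_sq Y
  inv_mem' := by
    rintro u (rfl | rfl)
    · left; simp
    · right; exact gn_inv Y

theorem mem_Hs {Y : Bool} {d : DihedralGroup m} : d ∈ Hs m Y ↔ d = 1 ∨ d = gn m Y := Iff.rfl

theorem gn_mem (Y : Bool) : gn m Y ∈ Hs m Y := Or.inr rfl

theorem Hs_comm {Y : Bool} {u v : DihedralGroup m} (hu : u ∈ Hs m Y) (hv : v ∈ Hs m Y) :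
    u * v * u⁻¹ = v := by
  rcases hu with rfl | rfl <;> rcases hv with rfl | rfl <;> simp

/-- Alternating products. -/
def alt (m : ℕ) : ℕ → Bool → Set (DihedralGroup m)
  | 0, _ => {1}
  | (q + 1), Y => {d | ∃ e ∈ alt m q (!Y), ∃ w ∈ Hs m Y, d = e * w}

theorem alt_mul {q : ℕ} {Y : Bool} (hq : q ≠ 0) {d w : DihedralGroup m} (hd : d ∈ alt m q Y)
    (hw : w ∈ Hs m Y) : d * w ∈ alt m q Y := by
  obtain ⟨q, rfl⟩ := Nat.exists_eq_succ_of_ne_zero hq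
  obtain ⟨e, he, u, hu, rfl⟩ := hd
  exact ⟨e, he, u * w, Subgroup.mul_mem _ hu hw, mul_assoc _ _ _⟩

/-- Elements given by an interval of chambers. -/
def In (m : ℕ) (lo hi : ℤ) (d : DihedralGroup m) : Prop :=
  ∃ i : ℤ, (d = r (i : ZMod m) ∧ lo ≤ 2 * i ∧ 2 * i ≤ hi) ∨
    (d = sr (-(i : ZMod m)) ∧ lo ≤ 2 * i + 1 ∧ 2 * i + 1 ≤ hi)

theorem in_false (lo hi lo' hi' : ℤ) (h1 : lo' % 2 = 0) (h2 : hi' % 2 = 1)
    (h3 : lo' = lo ∨ lo' = lo - 1) (h4 : hi' = hi ∨ hi' = hi + 1) (h5 : lo ≤ hi)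
    (d : DihedralGroup m) :
    (∃ e, In m lo hi e ∧ ∃ w ∈ Hs m false, d = e * w) ↔ In m lo' hi' d := by
  constructor
  · rintro ⟨e, ⟨i, ⟨rfl, h6, h7⟩ | ⟨rfl, h6, h7⟩⟩, w, rfl | rfl, rfl⟩
    · exact ⟨i, Or.inl ⟨by simp, by omega, by omega⟩⟩
    · exact ⟨i, Or.inr ⟨by simp [gn], by omega, by omega⟩⟩
    · exact ⟨i, Or.inr ⟨by simp, by omega, by omega⟩⟩
    · exact ⟨i, Or.inl ⟨by simp [gn], by omega, by omega⟩⟩
  · rintro ⟨i, ⟨rfl, h6, h7⟩ | ⟨rfl, h6, h7⟩⟩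
    · by_cases h8 : lo ≤ 2 * i
      · exact ⟨_, ⟨i, Or.inl ⟨rfl, h8, by omega⟩⟩, 1, Or.inl rfl, by simp⟩
      · exact ⟨_, ⟨i, Or.inr ⟨rfl, by omega, by omega⟩⟩, _, Or.inr rfl, by simp [gn]⟩
    · by_cases h8 : 2 * i + 1 ≤ hi
      · exact ⟨_, ⟨i, Or.inr ⟨rfl, by omega, h8⟩⟩, 1, Or.inl rfl, by simp⟩
      · exact ⟨_, ⟨i, Or.inl ⟨rfl, by omega, by omega⟩⟩, _, Or.inr rfl, by simp [gn]⟩

theorem in_true (lo hi lo' hi' : ℤ) (h1 : lo' % 2 = 1) (h2 : hi' % 2 = 0)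
    (h3 : lo' = lo ∨ lo' = lo - 1) (h4 : hi' = hi ∨ hi' = hi + 1) (h5 : lo ≤ hi)
    (d : DihedralGroup m) :
    (∃ e, In m lo hi e ∧ ∃ w ∈ Hs m true, d = e * w) ↔ In m lo' hi' d := by
  constructor
  · rintro ⟨e, ⟨i, ⟨rfl, h6, h7⟩ | ⟨rfl, h6, h7⟩⟩, w, rfl | rfl, rfl⟩
    · exact ⟨i, Or.inl ⟨by simp, by omega, by omega⟩⟩
    · refine ⟨i - 1, Or.inr ⟨?_, by omega, by omega⟩⟩
      simp [gn]
    · exact ⟨i, Or.inr ⟨by simp, by omega, by omega⟩⟩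
    · refine ⟨i + 1, Or.inl ⟨?_, by omega, by omega⟩⟩
      simp [gn, add_comm]
  · rintro ⟨i, ⟨rfl, h6, h7⟩ | ⟨rfl, h6, h7⟩⟩
    · by_cases h8 : 2 * i ≤ hi
      · exact ⟨_, ⟨i, Or.inl ⟨rfl, by omega, h8⟩⟩, 1, Or.inl rfl, by simp⟩
      · exact ⟨_, ⟨i - 1, Or.inr ⟨rfl, by omega, by omega⟩⟩, _, Or.inr rfl, by simp [gn]⟩
    · by_cases h8 : lo ≤ 2 * i + 1
      · exact ⟨_, ⟨i, Or.inr ⟨rfl, h8, by omega⟩⟩, 1, Or.inl rfl, by simp⟩
      · exact ⟨_, ⟨i + 1, Or.inl ⟨rfl, by omega, by omega⟩⟩, _, Or.inr rfl, by simp [gn]⟩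

theorem alt_char (q : ℕ) (Y : Bool) : ∃ lo hi : ℤ, (∀ d, d ∈ alt m q Y ↔ In m lo hi d) ∧
    ((q = 0 ∧ lo = 0 ∧ hi = 0) ∨ (1 ≤ q ∧ ((lo = -q ∧ hi = q - 1) ∨ (lo = 1 - q ∧ hi = q)) ∧
      (Y = false → lo % 2 = 0) ∧ (Y = true → lo % 2 = 1))) := by
  induction q generalizing Y with
  | zero =>
    refine ⟨0, 0, fun d => ?_, Or.inl ⟨rfl, rfl, rfl⟩⟩
    constructor
    · intro h
      have : d = 1 := h
      exact ⟨0, Or.inl ⟨by simp [this], by omega, by omega⟩⟩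
    · rintro ⟨i, ⟨rfl, h1, h2⟩ | ⟨rfl, h1, h2⟩⟩
      · have : i = 0 := by omega
        subst this
        change _ = 1
        simp
      · omega
  | succ q ih =>
    obtain ⟨lo, hi, h1, h2⟩ := ih (!Y)
    have key : ∀ d, d ∈ alt m (q + 1) Y ↔ ∃ e, In m lo hi e ∧ ∃ w ∈ Hs m Y, d = e * w := by
      intro d
      constructor
      · rintro ⟨e, he, h⟩; exact ⟨e, (h1 e).1 he, h⟩
      · rintro ⟨e, he, h⟩; exact ⟨e, (h1 e).2 he, h⟩
    cases Y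
    · rcases h2 with ⟨rfl, rfl, rfl⟩ | ⟨h3, h4, _, h5⟩
      · refine ⟨0, 1, fun d => (key d).trans (in_false _ _ _ _ (by omega) (by omega) (by omega)
          (by omega) (by omega) d), Or.inr ⟨by omega, by omega, by omega, by simp⟩⟩
      · have h6 := h5 rfl
        refine ⟨lo - 1, hi + 1, fun d => (key d).trans (in_false _ _ _ _ (by omega) (by omega)
          (by omega) (by omega) (by omega) d), Or.inr ⟨by omega, by push_cast; omega,
            fun _ => by omega, by simp⟩⟩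
    · rcases h2 with ⟨rfl, rfl, rfl⟩ | ⟨h3, h4, h5, _⟩
      · refine ⟨-1, 0, fun d => (key d).trans (in_true _ _ _ _ (by omega) (by omega) (by omega)
          (by omega) (by omega) d), Or.inr ⟨by omega, by omega, by simp, by omega⟩⟩
      · have h6 := h5 rfl
        refine ⟨lo - 1, hi + 1, fun d => (key d).trans (in_true _ _ _ _ (by omega) (by omega)
          (by omega) (by omega) (by omega) d), Or.inr ⟨by omega, by push_cast; omega,
            by simp, fun _ => by omega⟩⟩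

/-- The key dihedral lemma. -/
theorem alt_key {q e : ℕ} {Y : Bool} (he : 1 ≤ e) (hm : e + q < m)
    (h1 : r ((e : ℤ) : ZMod m) ∈ alt m q Y) (h2 : r ((-(e : ℤ) : ℤ) : ZMod m) ∈ alt m q Y) :
    2 * e + 1 ≤ q ∧ ∀ Z : Bool, ∃ c₁ ∈ alt m q Y, ∃ c₂ ∈ alt m q Y, ∃ X : Bool,
      ∃ w₁ ∈ Hs m X, ∃ w₂ ∈ Hs m X, ∃ f₁ ∈ Hs m Z, ∃ f₂ ∈ Hs m Z,
      (w₁ * c₁ * f₁ = r (((e + 1 : ℕ) : ℤ) : ZMod m) ∧
        w₂ * c₂ * f₂ = r ((-((e + 1 : ℕ) : ℤ) : ℤ) : ZMod m)) ∨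
      (c₁ * w₁ * f₁ = r (((e + 1 : ℕ) : ℤ) : ZMod m) ∧
        c₂ * w₂ * f₂ = r ((-((e + 1 : ℕ) : ℤ) : ℤ) : ZMod m)) := by
  obtain ⟨lo, hi, hc, hq⟩ := alt_char (m := m) q Y
  have hb : -(q : ℤ) ≤ lo ∧ hi ≤ q := by omega
  have g1 : 2 * (e : ℤ) ≤ hi := by
    obtain ⟨i, ⟨h3, h4, h5⟩ | ⟨h3, _⟩⟩ := (hc _).1 h1
    · have := cast_inj (r.inj h3) (by omega) (by omega)
      omega
    · cases h3
  have g2 : lo ≤ -(2 * (e : ℤ)) := by
    obtain ⟨i, ⟨h3, h4, h5⟩ | ⟨h3, _⟩⟩ := (hc _).1 h2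
    · have := cast_inj (r.inj h3) (by omega) (by omega)
      omega
    · cases h3
  refine ⟨by omega, fun Z => ?_⟩
  have hcase : 2 * (e : ℤ) + 1 ≤ hi ∨ lo ≤ -(2 * (e : ℤ)) - 1 := by omega
  rcases hcase with g3 | g3
  · have m1 : sr (-((e : ℤ) : ZMod m)) ∈ alt m q Y :=
      (hc _).2 ⟨e, Or.inr ⟨rfl, by omega, by omega⟩⟩
    cases Z
    · refine ⟨_, m1, _, h2, true, _, gn_mem _, _, gn_mem _, 1, Subgroup.one_mem _, _, gn_mem _,
        Or.inr ⟨?_, ?_⟩⟩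
      · simp [gn, add_comm]
      · simp [gn]; ring
    · refine ⟨_, m1, _, m1, true, 1, Subgroup.one_mem _, _, gn_mem _, _, gn_mem _, 1,
        Subgroup.one_mem _, Or.inl ⟨?_, ?_⟩⟩
      · simp [gn, add_comm]
      · simp [gn]; ring
  · have m1 : sr (-((-(e : ℤ) - 1 : ℤ) : ZMod m)) ∈ alt m q Y :=
      (hc _).2 ⟨-(e : ℤ) - 1, Or.inr ⟨rfl, by omega, by omega⟩⟩
    cases Z
    · refine ⟨_, m1, _, m1, false, _, gn_mem _, 1, Subgroup.one_mem _, 1, Subgroup.one_mem _, _,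
        gn_mem _, Or.inl ⟨?_, ?_⟩⟩
      · simp [gn, add_comm]
      · simp [gn]; ring
    · refine ⟨_, h1, _, m1, false, _, gn_mem _, _, gn_mem _, _, gn_mem _, 1, Subgroup.one_mem _,
        Or.inr ⟨?_, ?_⟩⟩
      · simp [gn, add_comm]
      · simp [gn]; ring

/-- First parity character. -/
def chiA (M : ℕ) : DihedralGroup (2 * M) →* C2 where
  toFun d := match d with
    | r i => Multiplicative.ofAdd (ZMod.castHom (dvd_mul_right 2 M) (ZMod 2) i)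
    | sr i => Multiplicative.ofAdd (1 + ZMod.castHom (dvd_mul_right 2 M) (ZMod 2) i)
  map_one' := by rw [one_def]; simp [-r_zero]
  map_mul' u v := by
    have h2 : ∀ x : ZMod 2, -x = x := fun x => ZMod.neg_eq_self_mod_two x
    have h3 : (1 : ZMod 2) + 1 = 0 := by decide
    rcases u with i | i <;> rcases v with j | j
    · simp only [r_mul_r, map_add, ofAdd_add]
    · simp only [r_mul_sr, ← ofAdd_add, sub_eq_add_neg, map_add, map_neg, h2]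
      congr 1; ring
    · simp only [sr_mul_r, map_add, ← ofAdd_add]
      congr 1; ring
    · simp only [sr_mul_sr, ← ofAdd_add, sub_eq_add_neg, map_add, map_neg, h2]
      congr 1
      linear_combination (-1 : ZMod 2) * h3

/-- Second parity character. -/
def chiB (M : ℕ) : DihedralGroup (2 * M) →* C2 where
  toFun d := match d with
    | r i => Multiplicative.ofAdd (ZMod.castHom (dvd_mul_right 2 M) (ZMod 2) i)
    | sr i => Multiplicative.ofAdd (ZMod.castHom (dvd_mul_right 2 M) (ZMod 2) i)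
  map_one' := by rw [one_def]; simp [-r_zero]
  map_mul' u v := by
    have h2 : ∀ x : ZMod 2, -x = x := fun x => ZMod.neg_eq_self_mod_two x
    rcases u with i | i <;> rcases v with j | j
    · simp only [r_mul_r, map_add, ofAdd_add]
    · simp only [r_mul_sr, ← ofAdd_add, sub_eq_add_neg, map_add, map_neg, h2]
      congr 1; ring
    · simp only [sr_mul_r, map_add, ← ofAdd_add]
    · simp only [sr_mul_sr, ← ofAdd_add, sub_eq_add_neg, map_add, map_neg, h2]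
      congr 1; ring

theorem chiA_false (M : ℕ) : chiA M (gn _ false) = c2 := by
  simp [chiA, gn, c2]

theorem chiA_true (M : ℕ) : chiA M (gn _ true) = 1 := by
  simp only [chiA, gn, MonoidHom.coe_mk, OneHom.coe_mk, map_one]
  decide

theorem chiB_false (M : ℕ) : chiB M (gn _ false) = 1 := by
  simp [chiB, gn]

theorem chiB_true (M : ℕ) : chiB M (gn _ true) = c2 := by
  simp only [chiB, gn, MonoidHom.coe_mk, OneHom.coe_mk, map_one]
  rfl

end Pool.Agent.H388Z.RD
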