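import Mathlib
import Pool.Agent.H388Z.RD.Dih

namespace Pool.Agent.H388Z.RD

open Pool.Agent.Helper376.DL (Ball ball_succ ball_mono ball_add ball_mono_succ)

/-- The data of one scale. -/
structure Ctx {G : Type} [Group G] (α β τ : G) (V : Set G) (len : G → ℕ) {n m : ℕ}
    (ρ : G →* Wr n (DihedralGroup m)) (h c v c₁ C R : ℕ) (s₀ : G) : Prop where
  lev : IsLev α β τ ρ (2 * (h : ℤ) - 1) (gn m false) (gn m true)
  V1 : (1 : G) ∈ V
  Vinv : ∀ s ∈ V, s⁻¹ ∈ V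
  len_iff : ∀ g k, len g ≤ k ↔ g ∈ Ball V k
  Vc : ∀ s ∈ V, s * (τ ^ (ρ s).x)⁻¹ ∈ NW (Lam α β) τ c
  Vv : ∀ s ∈ V, -(v : ℤ) ≤ (ρ s).x ∧ (ρ s).x ≤ v
  vc : v ≤ c
  v1 : 1 ≤ v
  s0V : s₀ ∈ V
  s0x : (ρ s₀).x = v
  SV : SG (Lam α β) τ ⊆ Ball V c₁
  P : ∀ g ∈ NW (Lam α β) τ R, ρ g = 1 → len g ≤ C
  fin : (NW (Lam α β) τ h : Set G).Finite
  hc : 2 * (c + 1) ≤ h
  hR : 2 * h ≤ R
  hn : 4 * R ≤ n

/-- The two special sites. -/
def ys (n h : ℕ) (i : ℤ) : ZMod n := ((i - h : ℤ) : ZMod n)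

/-- Signs. -/
def sg : Bool → ℤ
  | false => -1
  | true => 1

/-- The zones where the special sites can be changed. -/
def zone (h c : ℕ) (Y : Bool) (x : ℤ) : Prop :=
  sg Y * h - (c + 1) ≤ x ∧ x ≤ sg Y * h + (c + 1)

/-- Shifts. -/
def sf (h : ℕ) : Bool → ℤ
  | false => 0
  | true => 2 * (h : ℤ) - 1

section defs

variable {G : Type} [Group G] {n m : ℕ}

/-- Elements whose lamps lie in a window. -/
def MM (α β τ : G) (ρ : G →* Wr n (DihedralGroup m)) (R : ℕ) (g : G) : Prop :=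
  g * (τ ^ (ρ g).x)⁻¹ ∈ NW (Lam α β) τ R

/-- Same state outside the special sites, prescribed state on them. -/
def Sim (ρ : G →* Wr n (DihedralGroup m)) (h : ℕ) (g g' : G) (c₁ c₂ : DihedralGroup m) : Prop :=
  (ρ g').x = (ρ g).x ∧ (∀ z, z ≠ ys n h 0 → z ≠ ys n h 1 → (ρ g').f z = (ρ g).f z) ∧
    (ρ g').f (ys n h 0) = c₁ ∧ (ρ g').f (ys n h 1) = c₂

variable {ρ : G →* Wr n (DihedralGroup m)} {h : ℕ}

theorem sim_refl (g : G) : Sim ρ h g g ((ρ g).f (ys n h 0)) ((ρ g).f (ys n h 1)) :=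
  ⟨rfl, fun _ _ _ => rfl, rfl, rfl⟩

theorem Sim.mul {g g' : G} {c₁ c₂ : DihedralGroup m} (hs : Sim ρ h g g' c₁ c₂) (w : G) :
    Sim ρ h (g * w) (g' * w) (c₁ * (ρ w).f (ys n h 0 - (ρ g).x))
      (c₂ * (ρ w).f (ys n h 1 - (ρ g).x)) := by
  obtain ⟨h1, h2, h3, h4⟩ := hs
  refine ⟨by simp [h1], fun z hz1 hz2 => by simp [h1, h2 z hz1 hz2], by simp [h1, h3],
    by simp [h1, h4]⟩

theorem Sim.press (hy : ys n h 0 ≠ ys n h 1) {g g' : G} {c₁ c₂ u₁ u₂ : DihedralGroup m}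
    (hs : Sim ρ h g g' c₁ c₂) {κ : G}
    (hκ : ρ κ = pt (ys n h 0 - ((ρ g).x : ZMod n)) u₁ *
      pt (ys n h 1 - ((ρ g).x : ZMod n)) u₂) :
    Sim ρ h g (g' * κ) (c₁ * u₁) (c₂ * u₂) := by
  obtain ⟨h1, h2, h3, h4⟩ := hs
  refine ⟨by simp [h1, hκ], fun z hz1 hz2 => ?_, ?_, ?_⟩
  · simp [h1, hκ, h2 z hz1 hz2, hz1, hz2]
  · simp [h1, hκ, h3, hy]
  · simp [h1, hκ, h4, hy.symm]

theorem Sim.left (hy : ys n h 0 ≠ ys n h 1) {g g' : G} {c₁ c₂ u₁ u₂ : DihedralGroup m}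
    (hs : Sim ρ h g g' c₁ c₂) {p : G} (hp : ρ p = pt (ys n h 0) u₁ * pt (ys n h 1) u₂) :
    Sim ρ h g (p * g') (u₁ * c₁) (u₂ * c₂) := by
  obtain ⟨h1, h2, h3, h4⟩ := hs
  refine ⟨by simp [h1, hp], fun z hz1 hz2 => ?_, ?_, ?_⟩
  · simp [hp, h2 z hz1 hz2, hz1, hz2]
  · simp [hp, h3, hy]
  · simp [hp, h4, hy.symm]

theorem Sim.eq {g g' : G} (hs : Sim ρ h g g' ((ρ g).f (ys n h 0)) ((ρ g).f (ys n h 1))) :
    ρ g' = ρ g := by
  obtain ⟨h1, h2, h3, h4⟩ := hs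
  apply Wr.ext _ h1
  funext z
  by_cases e1 : z = ys n h 0
  · rw [e1, h3]
  by_cases e2 : z = ys n h 1
  · rw [e2, h4]
  exact h2 z e1 e2

theorem Sim.trans {g g' g'' : G} {c₁ c₂ d₁ d₂ : DihedralGroup m} (hs : Sim ρ h g g' c₁ c₂)
    (ht : Sim ρ h g' g'' d₁ d₂) : Sim ρ h g g'' d₁ d₂ :=
  ⟨ht.1.trans hs.1, fun z h1 h2 => (ht.2.1 z h1 h2).trans (hs.2.1 z h1 h2), ht.2.2.1, ht.2.2.2⟩

end defs

namespace Ctx

variable {G : Type} [Group G] {α β τ : G} {V : Set G} {len : G → ℕ} {n m : ℕ}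
  {ρ : G →* Wr n (DihedralGroup m)} {h c v c₁ C R : ℕ} {s₀ : G}
  (K : Ctx α β τ V len ρ h c v c₁ C R s₀)

include K

theorem mem_len (g : G) : g ∈ Ball V (len g) := (K.len_iff g _).1 le_rfl

theorem len_mul (g w : G) : len (g * w) ≤ len g + len w :=
  (K.len_iff _ _).2 (ball_add (K.mem_len g) (K.mem_len w))

theorem len_inv (g : G) : len g⁻¹ ≤ len g := (K.len_iff _ _).2 (ball_inv K.Vinv (K.mem_len g))

theorem len_V {s : G} (hs : s ∈ V) : len s ≤ 1 := (K.len_iff _ _).2 (ball_one hs)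

theorem len_one : len 1 = 0 := Nat.le_zero.1 ((K.len_iff _ _).2 rfl)

theorem len_pow {s : G} (hs : s ∈ V) (j : ℕ) : len (s ^ j) ≤ j :=
  (K.len_iff _ _).2 (ball_pow hs j)

theorem len_SG {g : G} {k : ℕ} (hg : g ∈ Ball (SG (Lam α β) τ) k) : len g ≤ c₁ * k :=
  (K.len_iff _ _).2 (ball_subset_ball K.SV hg)

theorem len_tpow (j : ℤ) : len (τ ^ j) ≤ c₁ * j.natAbs :=
  K.len_SG (ball_zpow SG_t SG_tinv j)

theorem tpow_x (j : ℤ) : (ρ (τ ^ j)).x = j := by rw [K.lev.tpow]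

theorem tpow_f (j : ℤ) (z : ZMod n) : (ρ (τ ^ j)).f z = 1 := by rw [K.lev.tpow]

theorem ys_ne : ys n h 0 ≠ ys n h 1 := by
  intro e
  have h1 := K.hc
  have h2 := K.hR
  have h3 := K.hn
  have := cast_inj e (by omega) (by omega)
  omega

theorem MM_f {g : G} (z : ZMod n) : (ρ (g * (τ ^ (ρ g).x)⁻¹)).f z = (ρ g).f z := by
  rw [← zpow_neg, map_mul, Wr.mul_f, K.tpow_f, mul_one]

theorem MM_mono {R₁ R₂ : ℕ} (hle : R₁ ≤ R₂) {g : G} (hg : MM α β τ ρ R₁ g) : MM α β τ ρ R₂ g :=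
  NW_mono hle hg

theorem MM_mul {R₁ R₂ : ℕ} {g s : G} (hg : MM α β τ ρ R₁ g) (hs : MM α β τ ρ R₂ s)
    (hx : (ρ g).x.natAbs + R₂ ≤ R₁) : MM α β τ ρ R₁ (g * s) := by
  unfold MM at *
  have e : g * s * (τ ^ (ρ (g * s)).x)⁻¹ = (g * (τ ^ (ρ g).x)⁻¹) *
      (τ ^ (ρ g).x * (s * (τ ^ (ρ s).x)⁻¹) * (τ ^ (ρ g).x)⁻¹) := by
    rw [map_mul, Wr.mul_x, zpow_add]; group
  rw [e]
  exact Subgroup.mul_mem _ hg (conj_mem_NW hs _ hx)

theorem MM_tpow {R₁ : ℕ} {g : G} (hg : MM α β τ ρ R₁ g) (j : ℤ) : MM α β τ ρ R₁ (g * τ ^ j) := by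
  unfold MM at *
  have e : g * τ ^ j * (τ ^ (ρ (g * τ ^ j)).x)⁻¹ = g * (τ ^ (ρ g).x)⁻¹ := by
    rw [map_mul, Wr.mul_x, K.tpow_x, zpow_add]; group
  rw [e]; exact hg

theorem MM_of_NW {R₁ : ℕ} {g : G} (hg : g ∈ NW (Lam α β) τ R₁) : MM α β τ ρ R₁ g := by
  unfold MM
  rw [K.lev.nw_x hg]; simpa using hg

theorem NW_of_MM {R₁ : ℕ} {g : G} (hg : MM α β τ ρ R₁ g) (hx : (ρ g).x = 0) :
    g ∈ NW (Lam α β) τ R₁ := by
  unfold MM at hg
  rw [hx] at hg; simpa using hg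

theorem ball_x {l : ℕ} {g : G} (hg : g ∈ Ball V l) :
    -((v * l : ℕ) : ℤ) ≤ (ρ g).x ∧ (ρ g).x ≤ (v * l : ℕ) := by
  induction l generalizing g with
  | zero =>
    have : g = 1 := hg
    subst this
    simp
  | succ l ih =>
    obtain ⟨x, hx, s, hs, rfl⟩ := hg
    have h1 := ih hx
    have h2 := K.Vv s hs
    rw [map_mul, Wr.mul_x, Nat.mul_succ]
    omega

theorem ball_MM {l : ℕ} {g : G} (hg : g ∈ Ball V l) : MM α β τ ρ (c * l) g := by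
  induction l generalizing g with
  | zero =>
    have : g = 1 := hg
    subst this
    exact K.MM_of_NW (Subgroup.one_mem _)
  | succ l ih =>
    obtain ⟨x, hx, s, hs, rfl⟩ := hg
    have h1 := K.ball_x hx
    have h2 : v * l ≤ c * l := Nat.mul_le_mul_right _ K.vc
    refine K.MM_mul (K.MM_mono (by rw [Nat.mul_succ]; omega) (ih hx)) (K.Vc s hs) ?_
    rw [Nat.mul_succ]
    omega

/-- Elements with the same image are close. -/
theorem len_close {g g' : G} (hg : MM α β τ ρ R g) (hg' : c * len g' ≤ R) (e : ρ g' = ρ g) :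
    len g ≤ C + len g' := by
  have h1 : MM α β τ ρ R g' := K.MM_mono hg' (K.ball_MM (K.mem_len g'))
  unfold MM at hg h1
  rw [e] at h1
  have h2 := Subgroup.mul_mem _ hg (Subgroup.inv_mem _ h1)
  have e2 : g * (τ ^ (ρ g).x)⁻¹ * (g' * (τ ^ (ρ g).x)⁻¹)⁻¹ = g * g'⁻¹ := by group
  rw [e2] at h2
  have h3 := K.P _ h2 (by rw [map_mul, map_inv, e, mul_inv_cancel])
  have h4 := K.len_mul (g * g'⁻¹) g'
  rw [inv_mul_cancel_right] at h4
  omega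

/-- The effect of one step on a special site. -/
theorem step_mem {s : G} (hs : s ∈ V) {x : ℤ} (hx1 : -(R : ℤ) ≤ x) (hx2 : x ≤ R) {i : ℤ}
    (hi : i = 0 ∨ i = 1) (H : Subgroup (DihedralGroup m))
    (hH : ∀ Y, zone h c Y x → gn m Y ∈ H) : (ρ s).f (ys n h i - x) ∈ H := by
  rw [← K.MM_f]
  have h1 := K.hc
  have h2 := K.hR
  have h3 := K.hn
  have e : ys n h i - x = ((i - h - x : ℤ) : ZMod n) := by unfold ys; push_cast; ring
  refine one_lev K.lev H _ c ?_ ?_ (K.Vc s hs)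
  · intro p hp1 hp2 hp
    rw [e] at hp
    have := cast_inj hp (by omega) (by omega)
    exact hH false (by simp only [zone, sg]; omega)
  · intro p hp1 hp2 hp
    rw [e] at hp
    have := cast_inj hp (by omega) (by omega)
    exact hH true (by simp only [zone, sg]; omega)

theorem letter (Y : Bool) {u : DihedralGroup m} (hu : u ∈ Hs m Y) :
    ∃ ξ : G, (ξ = 1 ∨ ξ ∈ Lam α β) ∧
      ∀ p : ℤ, ρ (τ ^ p * ξ * (τ ^ p)⁻¹) = pt ((p - sf h Y : ℤ) : ZMod n) u := by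
  rcases hu with rfl | rfl
  · exact ⟨1, Or.inl rfl, fun p => by simp [pt_one]⟩
  · cases Y
    · exact ⟨α, Or.inr Lam_al, fun p => by rw [K.lev.alp]; simp [sf]⟩
    · exact ⟨β, Or.inr Lam_be, fun p => by rw [K.lev.bep]; rfl⟩

theorem press1 (Y : Bool) {i : ℤ} (hi : i = 0 ∨ i = 1) (x : ℤ) {u : DihedralGroup m}
    (hu : u ∈ Hs m Y) : ∃ κ : G, len κ ≤ c₁ * (2 * (sg Y * h - x).natAbs + 3) ∧
      ρ κ = pt (ys n h i - (x : ZMod n)) u ∧ (x = 0 → κ ∈ NW (Lam α β) τ h) := by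
  obtain ⟨ξ, h1, h2⟩ := K.letter Y hu
  obtain ⟨p, hp⟩ : ∃ p : ℤ, p = i - h - x + sf h Y := ⟨_, rfl⟩
  have hξ : ξ ∈ SG (Lam α β) τ := by
    rcases h1 with rfl | h1
    · exact SG_one
    · exact SG_lamp h1
  have hc := K.hc
  refine ⟨τ ^ p * ξ * (τ ^ p)⁻¹, ?_, ?_, ?_⟩
  · have h3 : τ ^ p * ξ * (τ ^ p)⁻¹ ∈ Ball (SG (Lam α β) τ) (p.natAbs + 1 + p.natAbs) :=
      ball_add (ball_succ (ball_zpow SG_t SG_tinv p) hξ)
        (ball_inv (fun _ hs => SG_inv Lam_inv hs) (ball_zpow SG_t SG_tinv p))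
    refine le_trans (K.len_SG h3) (Nat.mul_le_mul_left _ ?_)
    cases Y <;> simp only [sg, sf] at hp ⊢ <;> omega
  · rw [h2]
    congr 1
    unfold ys
    rw [hp]; push_cast; ring
  · intro hx
    rcases h1 with rfl | h1
    · simp
    · apply lamp_mem_NW h1 <;> cases Y <;> simp only [sf] at hp <;> omega

theorem press (Y : Bool) (x : ℤ) {u₁ u₂ : DihedralGroup m} (hu₁ : u₁ ∈ Hs m Y)
    (hu₂ : u₂ ∈ Hs m Y) : ∃ κ : G, len κ ≤ c₁ * (4 * (sg Y * h - x).natAbs + 6) ∧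
      ρ κ = pt (ys n h 0 - (x : ZMod n)) u₁ * pt (ys n h 1 - (x : ZMod n)) u₂ ∧
      (x = 0 → κ ∈ NW (Lam α β) τ h) := by
  obtain ⟨κ₁, a1, a2, a3⟩ := K.press1 Y (Or.inl rfl) x hu₁
  obtain ⟨κ₂, b1, b2, b3⟩ := K.press1 Y (Or.inr rfl) x hu₂
  refine ⟨κ₁ * κ₂, ?_, by rw [map_mul, a2, b2], fun hx => Subgroup.mul_mem _ (a3 hx) (b3 hx)⟩
  have := K.len_mul κ₁ κ₂
  have e : c₁ * (4 * (sg Y * h - x).natAbs + 6) = c₁ * (2 * (sg Y * h - x).natAbs + 3) +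
    c₁ * (2 * (sg Y * h - x).natAbs + 3) := by ring
  omega

/-- The steering lemma. -/
theorem steer (l : ℕ) (hl : c * l ≤ R) {g : G} (hg : g ∈ Ball V l) : ∃ (q : ℕ) (Y : Bool),
    (ρ g).f (ys n h 0) ∈ alt m q Y ∧ (ρ g).f (ys n h 1) ∈ alt m q Y ∧
    (∀ d₁ ∈ alt m q Y, ∀ d₂ ∈ alt m q Y, ∃ g', len g' ≤ l + c₁ * (4 * c + 10) * q ∧
      Sim ρ h g g' d₁ d₂) ∧
    2 * (q * ((h : ℤ) - c - 1)) - sg Y * (ρ g).x ≤ (v * l : ℕ) ∧
    2 * (q * ((h : ℤ) - c - 1)) - ((h : ℤ) - c - 1) ≤ (v * l : ℕ) := by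
  have hc := K.hc
  induction l generalizing g with
  | zero =>
    have : g = 1 := hg
    subst this
    refine ⟨0, false, by simp [alt], by simp [alt], ?_, by simp, by simp; omega⟩
    intro d₁ h1 d₂ h2
    have e1 : d₁ = 1 := h1
    have e2 : d₂ = 1 := h2
    subst e1 e2
    exact ⟨1, by simp [K.len_one], by simpa using sim_refl (ρ := ρ) (h := h) 1⟩
  | succ l ih =>
    obtain ⟨g, hg, s, hs, rfl⟩ := hg
    rw [Nat.mul_succ] at hl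
    obtain ⟨q, Y, a1, a2, a3, a4, a5⟩ := ih (by omega) hg
    have hx := K.ball_x hg
    have hvl : v * l ≤ c * l := Nat.mul_le_mul_right _ K.vc
    have hsx := K.Vv s hs
    have hx1 : -(R : ℤ) ≤ (ρ g).x := by omega
    have hx2 : (ρ g).x ≤ R := by omega
    have keep : ∀ H : Subgroup (DihedralGroup m), (∀ Z, zone h c Z (ρ g).x → gn m Z ∈ H) →
        (∀ d ∈ alt m q Y, ∀ w ∈ H, d * w ∈ alt m q Y) → ∃ (q : ℕ) (Y : Bool),
        (ρ (g * s)).f (ys n h 0) ∈ alt m q Y ∧ (ρ (g * s)).f (ys n h 1) ∈ alt m q Y ∧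
        (∀ d₁ ∈ alt m q Y, ∀ d₂ ∈ alt m q Y, ∃ g', len g' ≤ l + 1 + c₁ * (4 * c + 10) * q ∧
          Sim ρ h (g * s) g' d₁ d₂) ∧
        2 * (q * ((h : ℤ) - c - 1)) - sg Y * (ρ (g * s)).x ≤ (v * (l + 1) : ℕ) ∧
        2 * (q * ((h : ℤ) - c - 1)) - ((h : ℤ) - c - 1) ≤ (v * (l + 1) : ℕ) := by
      intro H hH hcl
      have u1 := K.step_mem hs hx1 hx2 (Or.inl rfl) H hH
      have u2 := K.step_mem hs hx1 hx2 (Or.inr rfl) H hH
      refine ⟨q, Y, ?_, ?_, ?_, ?_, ?_⟩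
      · rw [map_mul, Wr.mul_f]; exact hcl _ a1 _ u1
      · rw [map_mul, Wr.mul_f]; exact hcl _ a2 _ u2
      · intro d₁ h1 d₂ h2
        obtain ⟨g', b1, b2⟩ := a3 _ (hcl _ h1 _ (H.inv_mem u1)) _ (hcl _ h2 _ (H.inv_mem u2))
        refine ⟨g' * s, ?_, by simpa using b2.mul s⟩
        have := K.len_mul g' s
        have := K.len_V hs
        omega
      · rw [map_mul, Wr.mul_x, Nat.mul_succ]
        cases Y <;> simp only [sg] at a4 ⊢ <;> omega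
      · rw [Nat.mul_succ]; omega
    by_cases hz : ∃ Z, zone h c Z (ρ g).x
    swap
    · refine keep ⊥ (fun Z hZ => absurd ⟨Z, hZ⟩ hz) ?_
      intro d hd w hw
      rw [Subgroup.mem_bot.1 hw, mul_one]; exact hd
    obtain ⟨Z, hZ⟩ := hz
    have hH : ∀ Z', zone h c Z' (ρ g).x → gn m Z' ∈ Hs m Z := by
      intro Z' hZ'
      have : Z' = Z := by
        cases Z <;> cases Z' <;> simp only [zone, sg] at hZ hZ' ⊢ <;> omega
      rw [this]; exact gn_mem Z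
    by_cases hq : q ≠ 0 ∧ Y = Z
    · obtain ⟨hq, rfl⟩ := hq
      exact keep (Hs m Y) hH (fun d hd w hw => alt_mul hq hd hw)
    have halt : alt m q Y = alt m q (!Z) ∧
        2 * (q * ((h : ℤ) - c - 1)) - sg (!Z) * (ρ g).x ≤ (v * l : ℕ) := by
      by_cases h0 : q = 0
      · subst h0
        refine ⟨rfl, ?_⟩
        cases Z <;> simp only [sg, Bool.not_false, Bool.not_true] <;> omega
      · have : Y = !Z := by
          have h3 : Y ≠ Z := fun e => hq ⟨h0, e⟩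
          cases Y <;> cases Z <;> simp_all
        rw [← this]; exact ⟨rfl, a4⟩
    obtain ⟨e1, e2⟩ := halt
    rw [e1] at a1 a2 a3
    have u1 := K.step_mem hs hx1 hx2 (Or.inl rfl) _ hH
    have u2 := K.step_mem hs hx1 hx2 (Or.inr rfl) _ hH
    have eq : ((q + 1 : ℕ) : ℤ) * ((h : ℤ) - c - 1) = q * ((h : ℤ) - c - 1) + ((h : ℤ) - c - 1) := by
      push_cast; ring
    refine ⟨q + 1, Z, ?_, ?_, ?_, ?_, ?_⟩
    · rw [map_mul, Wr.mul_f]; exact ⟨_, a1, _, u1, rfl⟩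
    · rw [map_mul, Wr.mul_f]; exact ⟨_, a2, _, u2, rfl⟩
    · rintro _ ⟨d₁, h1, w₁, hw₁, rfl⟩ _ ⟨d₂, h2, w₂, hw₂, rfl⟩
      obtain ⟨g', b1, b2⟩ := a3 _ h1 _ h2
      obtain ⟨κ, k1, k2, _⟩ := K.press Z (ρ g).x
        (Subgroup.mul_mem _ hw₁ (Subgroup.inv_mem _ u1))
        (Subgroup.mul_mem _ hw₂ (Subgroup.inv_mem _ u2))
      refine ⟨g' * κ * s, ?_, by simpa [mul_assoc] using (b2.press K.ys_ne k2).mul s⟩
      have i1 := K.len_mul (g' * κ) s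
      have i2 := K.len_mul g' κ
      have i3 := K.len_V hs
      have i4 : c₁ * (4 * (sg Z * h - (ρ g).x).natAbs + 6) ≤ c₁ * (4 * c + 10) := by
        apply Nat.mul_le_mul_left
        unfold zone at hZ
        omega
      rw [Nat.mul_succ]
      omega
    · rw [map_mul, Wr.mul_x, Nat.mul_succ, eq]
      cases Z <;> simp only [zone, sg, Bool.not_false, Bool.not_true] at e2 hZ ⊢ <;> omega
    · rw [Nat.mul_succ, eq]
      cases Z <;> simp only [zone, sg, Bool.not_false, Bool.not_true] at e2 hZ ⊢ <;> omega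

end Ctx

end Pool.Agent.H388Z.RD
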