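import Mathlib
import Pool.Agent.H388Z.RD.Core1

namespace Pool.Agent.H388Z.RD

open Pool.Agent.Helper376.DL (Ball ball_succ ball_mono ball_add ball_mono_succ)
open Pool.Agent.Helper376.Lac (Joined)
open DihedralGroup Relation

/-- The pockets. -/
def EE {G : Type} [Group G] {n m : ℕ} (α β τ : G) (ρ : G →* Wr n (DihedralGroup m)) (h c : ℕ)
    (e : ℕ) : Set G :=
  {g | MM α β τ ρ h g ∧ -((h : ℤ) - c - 1) < (ρ g).x ∧ (ρ g).x < (h : ℤ) - c - 1 ∧
    (ρ g).f (ys n h 0) = r ((e : ℤ) : ZMod m) ∧ (ρ g).f (ys n h 1) = r ((-(e : ℤ) : ℤ) : ZMod m)}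

/-- No deep pockets. -/
def NP {G : Type} [Group G] (V : Set G) (len : G → ℕ) (d : ℕ) : Prop :=
  ∀ g : G, (∀ s ∈ V, len (g * s) ≤ len g) →
    {g' | Joined V {z | len g - d ≤ len z} g g'}.Infinite

namespace Ctx

variable {G : Type} [Group G] {α β τ : G} {V : Set G} {len : G → ℕ} {n m : ℕ}
  {ρ : G →* Wr n (DihedralGroup m)} {h c v c₁ C R : ℕ} {s₀ : G}
  (K : Ctx α β τ V len ρ h c v c₁ C R s₀)

include K

theorem E_step {e : ℕ} {g s : G} (hg : g ∈ EE α β τ ρ h c e) (hs : s ∈ V)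
    (h1 : -((h : ℤ) - c - 1) < (ρ (g * s)).x) (h2 : (ρ (g * s)).x < (h : ℤ) - c - 1) :
    g * s ∈ EE α β τ ρ h c e := by
  obtain ⟨a1, a2, a3, a4, a5⟩ := hg
  have hR := K.hR
  have hH : ∀ Y, zone h c Y (ρ g).x → gn m Y ∈ (⊥ : Subgroup (DihedralGroup m)) := by
    intro Y hY
    cases Y <;> simp only [zone, sg] at hY <;> omega
  have u1 := Subgroup.mem_bot.1 (K.step_mem hs (by omega) (by omega) (Or.inl rfl) ⊥ hH)
  have u2 := Subgroup.mem_bot.1 (K.step_mem hs (by omega) (by omega) (Or.inr rfl) ⊥ hH)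
  refine ⟨K.MM_mul a1 (K.Vc s hs) (by omega), h1, h2, ?_, ?_⟩
  · rw [map_mul, Wr.mul_f, u1, mul_one, a4]
  · rw [map_mul, Wr.mul_f, u2, mul_one, a5]

theorem pow_x (s : G) (j : ℕ) : (ρ (s ^ j)).x = j * (ρ s).x := by
  induction j with
  | zero => simp
  | succ j ih => rw [pow_succ, map_mul, Wr.mul_x, ih]; push_cast; ring

theorem E_walk {e : ℕ} {g s : G} (hg : g ∈ EE α β τ ρ h c e) (hs : s ∈ V) (j : ℕ)
    (h1 : -((h : ℤ) - c - 1) < (ρ g).x + j * (ρ s).x)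
    (h2 : (ρ g).x + j * (ρ s).x < (h : ℤ) - c - 1) : g * s ^ j ∈ EE α β τ ρ h c e := by
  induction j with
  | zero => simpa using hg
  | succ j ih =>
    have b1 := hg.2.1
    have b2 := hg.2.2.1
    have e1 : ((j + 1 : ℕ) : ℤ) * (ρ s).x = j * (ρ s).x + (ρ s).x := by push_cast; ring
    rw [e1] at h1 h2
    have hj : (0 : ℤ) ≤ j := Int.natCast_nonneg j
    have i1 : -((h : ℤ) - c - 1) < (ρ g).x + j * (ρ s).x := by
      rcases le_total 0 (ρ s).x with h3 | h3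
      · have := mul_nonneg hj h3
        omega
      · omega
    have i2 : (ρ g).x + j * (ρ s).x < (h : ℤ) - c - 1 := by
      rcases le_total 0 (ρ s).x with h3 | h3
      · omega
      · have := mul_nonpos_of_nonneg_of_nonpos hj h3
        omega
    rw [pow_succ, ← mul_assoc]
    refine K.E_step (ih i1 i2) hs ?_ ?_ <;>
      simp only [map_mul, Wr.mul_x, K.pow_x] <;> omega

theorem E_finite (e : ℕ) : (EE α β τ ρ h c e).Finite := by
  refine (box_finite K.fin).subset ?_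
  rintro g ⟨a1, a2, a3, _⟩
  exact ⟨_, a1, (ρ g).x, by omega, by omega, by simp⟩

/-- The fastest letters. -/
theorem fast (Y : Bool) : ∃ s ∈ V, (ρ s).x = sg Y * v := by
  cases Y
  · exact ⟨s₀⁻¹, K.Vinv _ K.s0V, by simp [sg, K.s0x]⟩
  · exact ⟨s₀, K.s0V, by simp [sg, K.s0x]⟩

theorem run_mem (Y : Bool) {s : G} (hs : s ∈ V) (hx : (ρ s).x = sg Y * v) {i : ℤ}
    (hi : i = 0 ∨ i = 1) (j : ℕ) (hj : v * j ≤ h) : (ρ (s ^ j)).f (ys n h i) ∈ Hs m Y := by
  induction j with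
  | zero => simpa using Subgroup.one_mem _
  | succ j ih =>
    rw [Nat.mul_succ] at hj
    rw [pow_succ, map_mul, Wr.mul_f]
    refine Subgroup.mul_mem _ (ih (by omega)) ?_
    have hR := K.hR
    have hc := K.hc
    have e : (ρ (s ^ j)).x = sg Y * (v * j : ℕ) := by rw [K.pow_x, hx]; push_cast; ring
    refine K.step_mem hs ?_ ?_ hi _ ?_
    · rw [e]; cases Y <;> simp only [sg] <;> omega
    · rw [e]; cases Y <;> simp only [sg] <;> omega
    · intro Z hZ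
      rw [e] at hZ
      have : Z = Y := by
        cases Z <;> cases Y <;> simp only [zone, sg] at hZ ⊢ <;> omega
      rw [this]; exact gn_mem Y

/-- A round trip from the centre. -/
theorem trip (Y : Bool) {u₁ u₂ : DihedralGroup m} (hu₁ : u₁ ∈ Hs m Y) (hu₂ : u₂ ∈ Hs m Y) :
    ∃ p : G, len p ≤ 2 * (h / v) + c₁ * (4 * v + 6) ∧
      ρ p = pt (ys n h 0) u₁ * pt (ys n h 1) u₂ := by
  obtain ⟨s, hs, hx⟩ := K.fast Y
  have hj : v * (h / v) ≤ h := Nat.mul_div_le h v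
  have hj2 : h < v * (h / v) + v := by
    have := Nat.div_add_mod h v
    have := Nat.mod_lt h K.v1
    omega
  obtain ⟨j, hjj⟩ : ∃ j, j = h / v := ⟨_, rfl⟩
  rw [← hjj] at hj hj2 ⊢
  have e : (ρ (s ^ j)).x = sg Y * (v * j : ℕ) := by rw [K.pow_x, hx]; push_cast; ring
  obtain ⟨κ, k1, k2, _⟩ := K.press Y (ρ (s ^ j)).x hu₁ hu₂
  have r1 := K.run_mem Y hs hx (Or.inl rfl) j hj
  have r2 := K.run_mem Y hs hx (Or.inr rfl) j hj
  have hy := K.ys_ne
  refine ⟨s ^ j * κ * (s ^ j)⁻¹, ?_, ?_⟩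
  · have i1 := K.len_mul (s ^ j * κ) (s ^ j)⁻¹
    have i2 := K.len_mul (s ^ j) κ
    have i3 := K.len_inv (s ^ j)
    have i4 := K.len_pow hs j
    have i5 : c₁ * (4 * (sg Y * h - (ρ (s ^ j)).x).natAbs + 6) ≤ c₁ * (4 * v + 6) := by
      apply Nat.mul_le_mul_left
      rw [e]
      cases Y <;> simp only [sg] <;> omega
    omega
  · rw [map_mul, map_mul, map_inv, k2]
    generalize ρ (s ^ j) = σ at r1 r2
    ext z
    · by_cases e1 : z = ys n h 0
      · subst e1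
        simpa [hy] using Hs_comm r1 hu₁
      by_cases e2 : z = ys n h 1
      · subst e2
        simpa [hy.symm] using Hs_comm r2 hu₂
      simp [e1, e2]
    · simp

/-- Changing the level of the pocket. -/
theorem nu (δ : ℤ) (hδ : δ = 1 ∨ δ = -1) : ∃ ν ∈ NW (Lam α β) τ h, len ν ≤ c₁ * (12 * h + 18) ∧
    ρ ν = pt (ys n h 0) (r (δ : ZMod m)) * pt (ys n h 1) (r ((-δ : ℤ) : ZMod m)) := by
  have hy := K.ys_ne
  have key : ∀ Y : Bool, ∃ ν ∈ NW (Lam α β) τ h, len ν ≤ c₁ * (12 * h + 18) ∧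
      ρ ν = pt (ys n h 0) (gn m Y * gn m (!Y)) * pt (ys n h 1) (gn m (!Y) * gn m Y) := by
    intro Y
    obtain ⟨κ₁, a1, a2, a3⟩ := K.press Y 0 (gn_mem Y) (Subgroup.one_mem _)
    obtain ⟨κ₂, b1, b2, b3⟩ := K.press (!Y) 0 (gn_mem _) (gn_mem _)
    obtain ⟨κ₃, d1, d2, d3⟩ := K.press Y 0 (Subgroup.one_mem _) (gn_mem Y)
    refine ⟨κ₁ * κ₂ * κ₃, Subgroup.mul_mem _ (Subgroup.mul_mem _ (a3 rfl) (b3 rfl)) (d3 rfl),
      ?_, ?_⟩
    · have i1 := K.len_mul (κ₁ * κ₂) κ₃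
      have i2 := K.len_mul κ₁ κ₂
      have i3 : ∀ Z, (sg Z * h - 0).natAbs = h := by
        intro Z; cases Z <;> simp [sg]
      rw [i3] at a1 b1 d1
      have e : c₁ * (12 * h + 18) = 3 * (c₁ * (4 * h + 6)) := by ring
      omega
    · rw [map_mul, map_mul, a2, b2, d2]
      ext z
      · by_cases e1 : z = ys n h 0
        · subst e1; simp [hy]
        by_cases e2 : z = ys n h 1
        · subst e2; simp [hy.symm]
        simp [e1, e2]
      · simp
  rcases hδ with rfl | rfl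
  · obtain ⟨ν, h1, h2, h3⟩ := key false
    exact ⟨ν, h1, h2, by simpa [gn] using h3⟩
  · obtain ⟨ν, h1, h2, h3⟩ := key true
    exact ⟨ν, h1, h2, by simpa [gn] using h3⟩

theorem E_change {e e' : ℕ} (he : e' = e + 1 ∨ e = e' + 1) {g : G} (hg : g ∈ EE α β τ ρ h c e)
    (hx : (ρ g).x = 0) : ∃ g' ∈ EE α β τ ρ h c e', ∃ d₁ d₂, Sim ρ h g' g d₁ d₂ := by
  obtain ⟨ν, h1, _, h3⟩ := K.nu ((e' : ℤ) - e) (by omega)
  obtain ⟨a1, a2, a3, a4, a5⟩ := hg
  have hs := (sim_refl (ρ := ρ) (h := h) g).press K.ys_ne (κ := ν) (by simpa [hx] using h3)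
  refine ⟨g * ν, ⟨K.MM_of_NW (Subgroup.mul_mem _ (K.NW_of_MM a1 hx) h1), by rw [hs.1]; exact a2,
    by rw [hs.1]; exact a3, ?_, ?_⟩, _, _, hs.1.symm, fun z e1 e2 => (hs.2.1 z e1 e2).symm,
    rfl, rfl⟩
  · rw [hs.2.2.1, a4, r_mul_r]; congr 1; push_cast; ring
  · rw [hs.2.2.2, a5, r_mul_r]; congr 1; push_cast; ring

theorem E_nonempty (e : ℕ) : ∃ g ∈ EE α β τ ρ h c e, (ρ g).x = 0 := by
  have hc := K.hc
  induction e with
  | zero =>
    refine ⟨1, ⟨K.MM_of_NW (Subgroup.one_mem _), ?_, ?_, ?_, ?_⟩, by simp⟩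
    · simp; omega
    · simp; omega
    · simp
    · simp
  | succ e ih =>
    obtain ⟨g, hg, hx⟩ := ih
    obtain ⟨g', hg', _, _, hs⟩ := K.E_change (Or.inl rfl) hg hx
    exact ⟨g', hg', by rw [← hs.1, hx]⟩

/-- Without deep pockets a long element sits near the boundary. -/
theorem boundary {d : ℕ} (hNP : NP V len d) (e : ℕ) : ∃ g' ∈ EE α β τ ρ h c e,
    (∃ s ∈ V, g' * s ∉ EE α β τ ρ h c e) ∧ ∀ g ∈ EE α β τ ρ h c e, len g ≤ len g' + d := by
  obtain ⟨g₀, hg₀, _⟩ := K.E_nonempty e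
  obtain ⟨g, hg, hmax⟩ := Set.exists_max_image _ len (K.E_finite e) ⟨g₀, hg₀⟩
  by_cases hd : ∀ s ∈ V, len (g * s) ≤ len g
  · have hinf := hNP g hd
    obtain ⟨z, hz, hzE⟩ : ∃ z, Joined V {z | len g - d ≤ len z} g z ∧ z ∉ EE α β τ ρ h c e := by
      by_contra hcon
      push Not at hcon
      exact hinf ((K.E_finite e).subset (fun z hz => hcon z hz))
    have key : ∀ z, Joined V {z | len g - d ≤ len z} g z → z ∈ EE α β τ ρ h c e ∨
        ∃ g' ∈ EE α β τ ρ h c e, (∃ s ∈ V, g' * s ∉ EE α β τ ρ h c e) ∧ len g - d ≤ len g' := by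
      intro z hz
      induction hz with
      | refl => exact Or.inl hg
      | @tail y w _ hstep ih =>
        rcases ih with ih | ih
        · by_cases hw : w ∈ EE α β τ ρ h c e
          · exact Or.inl hw
          · exact Or.inr ⟨y, ih, ⟨y⁻¹ * w, hstep.2.2, by simpa using hw⟩, hstep.1⟩
        · exact Or.inr ih
    rcases key z hz with h1 | ⟨g', h1, h2, h3⟩
    · exact absurd h1 hzE
    · exact ⟨g', h1, h2, fun y hy => by have := hmax y hy; omega⟩
  · push Not at hd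
    obtain ⟨s, hs, hlt⟩ := hd
    refine ⟨g, hg, ⟨s, hs, fun hE => ?_⟩, fun y hy => by have := hmax y hy; omega⟩
    have := hmax _ hE
    omega

open Classical in
theorem sweep (Y : Bool) (F : ZMod n → DihedralGroup m) (hF : ∀ z, F z ∈ Hs m Y) (l : ℕ)
    (hl : l ≤ 2 * h + 1) : ∃ ν : G, ν * τ ^ ((l : ℤ) - h) ∈ Ball (SG (Lam α β) τ) (h + 2 * l) ∧
      (ρ ν).x = 0 ∧ ∀ z, (ρ ν).f z =
        if ∃ p : ℤ, -(h : ℤ) ≤ p ∧ p < (l : ℤ) - h ∧ z = ((p - sf h Y : ℤ) : ZMod n) then F z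
        else 1 := by
  induction l with
  | zero =>
    refine ⟨1, ?_, by simp, fun z => ?_⟩
    · have := ball_zpow (SG_t (Λ := Lam α β) (t := τ)) SG_tinv (-(h : ℤ))
      simpa using this
    · rw [if_neg]
      · simp
      · rintro ⟨p, h1, h2, _⟩
        omega
  | succ l ih =>
    obtain ⟨ν, a1, a2, a3⟩ := ih (by omega)
    obtain ⟨p, hp⟩ : ∃ p : ℤ, p = (l : ℤ) - h := ⟨_, rfl⟩
    obtain ⟨ξ, h1, h2⟩ := K.letter Y (hF ((p - sf h Y : ℤ) : ZMod n))
    have hξ : ξ ∈ SG (Lam α β) τ := by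
      rcases h1 with rfl | h1
      · exact SG_one
      · exact SG_lamp h1
    refine ⟨ν * (τ ^ p * ξ * (τ ^ p)⁻¹), ?_, ?_, fun z => ?_⟩
    · have e : ν * (τ ^ p * ξ * (τ ^ p)⁻¹) * τ ^ (((l + 1 : ℕ) : ℤ) - h) =
          ν * τ ^ ((l : ℤ) - h) * ξ * τ := by
        have e2 : ((l + 1 : ℕ) : ℤ) - h = p + 1 := by push_cast; omega
        rw [e2, ← hp, zpow_add_one]; group
      rw [e]
      exact ball_succ (ball_succ a1 hξ) SG_t
    · rw [map_mul, h2, Wr.mul_x, a2]; simp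
    · rw [map_mul, h2, Wr.mul_f, a3, a2, pt_f]
      simp only [Int.cast_zero, sub_zero]
      have hR := K.hR
      have hn := K.hn
      have hc := K.hc
      by_cases e1 : z = ((p - sf h Y : ℤ) : ZMod n)
      · rw [if_pos e1, if_neg, if_pos, one_mul, e1]
        · exact ⟨p, by omega, by push_cast; omega, e1⟩
        · rintro ⟨p', b1, b2, b3⟩
          have := cast_inj (e1.symm.trans b3) (by omega) (by omega)
          omega
      · rw [if_neg e1, mul_one]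
        congr 1
        apply propext
        constructor
        · rintro ⟨p', b1, b2, b3⟩
          exact ⟨p', b1, by push_cast; omega, b3⟩
        · rintro ⟨p', b1, b2, b3⟩
          refine ⟨p', b1, ?_, b3⟩
          by_contra hcon
          have : p' = p := by push_cast at b2; omega
          exact e1 (this ▸ b3)

open Classical in
theorem sweep' (Y : Bool) (F : ZMod n → DihedralGroup m) (hF : ∀ z, F z ∈ Hs m Y) :
    ∃ ν : G, len ν ≤ c₁ * (6 * h + 3) ∧ (ρ ν).x = 0 ∧ ∀ z, (ρ ν).f z =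
        if ∃ p : ℤ, -(h : ℤ) ≤ p ∧ p ≤ h ∧ z = ((p - sf h Y : ℤ) : ZMod n) then F z else 1 := by
  obtain ⟨ν, a1, a2, a3⟩ := K.sweep Y F hF (2 * h + 1) le_rfl
  refine ⟨ν, ?_, a2, fun z => ?_⟩
  · have b1 := ball_inv (fun _ hs => SG_inv Lam_inv hs)
      (ball_zpow (SG_t (Λ := Lam α β) (t := τ)) SG_tinv (((2 * h + 1 : ℕ) : ℤ) - h))
    have b2 := ball_add a1 b1
    rw [mul_inv_cancel_right] at b2
    refine le_trans (K.len_SG b2) (Nat.mul_le_mul_left _ ?_)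
    omega
  · rw [a3]
    congr 1
    apply propext
    constructor
    · rintro ⟨p, b1, b2, b3⟩
      exact ⟨p, b1, by omega, b3⟩
    · rintro ⟨p, b1, b2, b3⟩
      exact ⟨p, b1, by omega, b3⟩

open Classical in
/-- The crude upper bound. -/
theorem crude (hR' : c * (c₁ * (25 * h + 24)) ≤ R) {g : G} (hg : g ∈ EE α β τ ρ h c 1) :
    len g ≤ C + c₁ * (25 * h + 24) := by
  obtain ⟨a1, a2, a3, a4, a5⟩ := hg
  obtain ⟨ν₀, _, n1, n2⟩ := K.nu 1 (Or.inl rfl)
  let F : Bool → ZMod n → DihedralGroup m := fun Y z =>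
    if z ≠ ys n h 0 ∧ z ≠ ys n h 1 ∧ (ρ g).f z ∈ Hs m Y then (ρ g).f z else 1
  have hF : ∀ Y z, F Y z ∈ Hs m Y := by
    intro Y z
    simp only [F]
    split_ifs with h1
    · exact h1.2.2
    · exact Subgroup.one_mem _
  obtain ⟨νA, A1, A2, A3⟩ := K.sweep' false _ (hF false)
  obtain ⟨νB, B1, B2, B3⟩ := K.sweep' true _ (hF true)
  have hy := K.ys_ne
  have hR := K.hR
  have hn := K.hn
  have hc := K.hc
  have hlen : len (ν₀ * νA * νB * τ ^ (ρ g).x) ≤ c₁ * (25 * h + 24) := by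
    have i1 := K.len_mul (ν₀ * νA * νB) (τ ^ (ρ g).x)
    have i2 := K.len_mul (ν₀ * νA) νB
    have i3 := K.len_mul ν₀ νA
    have i4 := K.len_tpow (ρ g).x
    have i5 : c₁ * (ρ g).x.natAbs ≤ c₁ * h := Nat.mul_le_mul_left _ (by omega)
    have e : c₁ * (25 * h + 24) = c₁ * (12 * h + 18) + c₁ * (6 * h + 3) + c₁ * (6 * h + 3) +
      c₁ * h := by ring
    omega
  have heq : ρ (ν₀ * νA * νB * τ ^ (ρ g).x) = ρ g := by
    ext z
    swap
    · rw [map_mul, Wr.mul_x, K.tpow_x]; simp [n2, A2, B2]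
    have e0 : (ρ (ν₀ * νA * νB * τ ^ (ρ g).x)).f z = (ρ ν₀).f z * (ρ νA).f z * (ρ νB).f z := by
      rw [map_mul, Wr.mul_f, K.tpow_f, mul_one, map_mul, map_mul]
      simp [n2, A2]
    rw [e0, A3, B3, n2]
    by_cases e1 : z = ys n h 0
    · subst e1
      simp [F, hy, a4]
    by_cases e2 : z = ys n h 1
    · subst e2
      simp [F, hy.symm, a5]
    have f0 : (pt (ys n h 0) (r ((1 : ℤ) : ZMod m)) *
        pt (ys n h 1) (r ((-1 : ℤ) : ZMod m))).f z = 1 := by simp [e1, e2]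
    rw [f0, one_mul]
    have hmem : ∀ H : Subgroup (DihedralGroup m),
        ((∃ p : ℤ, -(h : ℤ) ≤ p ∧ p ≤ h ∧ z = ((p - sf h false : ℤ) : ZMod n)) → gn m false ∈ H) →
        ((∃ p : ℤ, -(h : ℤ) ≤ p ∧ p ≤ h ∧ z = ((p - sf h true : ℤ) : ZMod n)) → gn m true ∈ H) →
        (ρ g).f z ∈ H := by
      intro H h1 h2
      rw [← K.MM_f]
      refine one_lev K.lev H z h (fun p b1 b2 b3 => h1 ⟨p, b1, b2, by simpa [sf] using b3⟩)
        (fun p b1 b2 b3 => h2 ⟨p, b1, b2, b3⟩) a1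
    by_cases hA : ∃ p : ℤ, -(h : ℤ) ≤ p ∧ p ≤ h ∧ z = ((p - sf h false : ℤ) : ZMod n)
    · have hB : ¬ ∃ p : ℤ, -(h : ℤ) ≤ p ∧ p ≤ h ∧ z = ((p - sf h true : ℤ) : ZMod n) := by
        obtain ⟨p, b1, b2, b3⟩ := hA
        rintro ⟨p', d1, d2, d3⟩
        simp only [sf] at b3 d3
        have := cast_inj (b3.symm.trans d3) (by omega) (by omega)
        have hp : p = -h ∨ p = 1 - h := by omega
        rcases hp with hp | hp
        · apply e1; rw [b3]; unfold ys; congr 1; omega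
        · apply e2; rw [b3]; unfold ys; congr 1; omega
      rw [if_pos hA, if_neg hB, mul_one]
      have := hmem (Hs m false) (fun _ => gn_mem _) (fun h' => absurd h' hB)
      simp [F, e1, e2, this]
    · rw [if_neg hA, one_mul]
      by_cases hB : ∃ p : ℤ, -(h : ℤ) ≤ p ∧ p ≤ h ∧ z = ((p - sf h true : ℤ) : ZMod n)
      · rw [if_pos hB]
        have := hmem (Hs m true) (fun h' => absurd h' hA) (fun _ => gn_mem _)
        simp [F, e1, e2, this]
      · rw [if_neg hB]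
        exact (Subgroup.mem_bot.1 (hmem ⊥ (fun h' => absurd h' hA) (fun h' => absurd h' hB))).symm
  have := K.len_close (K.MM_mono (by omega) a1)
    (le_trans (Nat.mul_le_mul_left _ hlen) hR') heq
  omega

end Ctx

end Pool.Agent.H388Z.RD
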