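import Mathlib
import Pool.Agent.H388Z.RD.Core2

namespace Pool.Agent.H388Z.RD

open Pool.Agent.Helper376.DL (Ball ball_succ ball_mono ball_add ball_mono_succ)
open Pool.Agent.Helper376.Lac (Joined)
open DihedralGroup Relation

theorem Sim.symm {G : Type} [Group G] {n m : ℕ} {ρ : G →* Wr n (DihedralGroup m)} {h : ℕ}
    {g g' : G} {c₁ c₂ : DihedralGroup m} (hs : Sim ρ h g g' c₁ c₂) :
    Sim ρ h g' g ((ρ g).f (ys n h 0)) ((ρ g).f (ys n h 1)) :=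
  ⟨hs.1.symm, fun z h1 h2 => (hs.2.1 z h1 h2).symm, rfl, rfl⟩

namespace Ctx

variable {G : Type} [Group G] {α β τ : G} {V : Set G} {len : G → ℕ} {n m : ℕ}
  {ρ : G →* Wr n (DihedralGroup m)} {h c v c₁ C R : ℕ} {s₀ : G}
  (K : Ctx α β τ V len ρ h c v c₁ C R s₀)

include K

theorem lower {e u Q : ℕ} (he : 1 ≤ e) (hu : ∀ g ∈ EE α β τ ρ h c e, len g ≤ u)
    (hQ : ∀ q : ℕ, 2 * (q * ((h : ℤ) - c - 1)) - ((h : ℤ) - c - 1) ≤ (v * u : ℕ) → q ≤ Q)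
    (hm : e + Q < m) (hR' : c * u ≤ R) : 4 * (e * ((h : ℤ) - c - 1)) ≤ (v * u : ℕ) := by
  obtain ⟨g, hg, _⟩ := K.E_nonempty e
  obtain ⟨q, Y, a1, a2, _, _, a5⟩ := K.steer u hR' ((K.len_iff _ _).1 (hu g hg))
  have hq := hQ q a5
  rw [hg.2.2.2.1] at a1
  rw [hg.2.2.2.2] at a2
  have h1 := (alt_key he (by omega) a1 a2).1
  have hc := K.hc
  have h2 : ((2 * e + 1 : ℕ) : ℤ) * ((h : ℤ) - c - 1) ≤ q * ((h : ℤ) - c - 1) :=
    mul_le_mul_of_nonneg_right (by exact_mod_cast h1) (by omega)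
  have h3 : ((2 * e + 1 : ℕ) : ℤ) * ((h : ℤ) - c - 1) =
      2 * (e * ((h : ℤ) - c - 1)) + ((h : ℤ) - c - 1) := by push_cast; ring
  omega

theorem main_step {e u Q : ℕ} (he : 1 ≤ e) (hu : ∀ g ∈ EE α β τ ρ h c e, len g ≤ u)
    (hQ : ∀ q : ℕ, 2 * (q * ((h : ℤ) - c - 1)) - ((h : ℤ) - c - 1) ≤ (v * u : ℕ) → q ≤ Q)
    (hm : e + Q < m)
    (hR' : c * (u + c₁ * (4 * c + 10) * Q + 3 * h + c₁ * (13 * c + 16)) ≤ R) {g' : G}
    (hg' : g' ∈ EE α β τ ρ h c (e + 1)) (hb : ∃ s ∈ V, g' * s ∉ EE α β τ ρ h c (e + 1)) :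
    len g' ≤ u + 3 * (h / v) + (c₁ * (4 * c + 10) * Q + c₁ * (13 * c + 16) + C) := by
  have hc := K.hc
  have hvc := K.vc
  have hv1 := K.v1
  have hR := K.hR
  have hy := K.ys_ne
  obtain ⟨Z, hZ⟩ : ∃ Z, (h : ℤ) - c - 1 - v ≤ sg Z * (ρ g').x := by
    obtain ⟨s, hs, hns⟩ := hb
    have h1 := K.Vv s hs
    by_contra hcon
    push Not at hcon
    have h2 := hcon false
    have h3 := hcon true
    simp only [sg] at h2 h3
    apply hns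
    apply K.E_step hg' hs <;> simp only [map_mul, Wr.mul_x] <;> omega
  have b2 := hg'.2.1
  have b3 := hg'.2.2.1
  obtain ⟨a, ha⟩ : ∃ a : ℕ, (a : ℤ) = sg Z * (ρ g').x :=
    ⟨(sg Z * (ρ g').x).toNat, Int.toNat_of_nonneg (by omega)⟩
  have hah : a ≤ h := by cases Z <;> simp only [sg] at ha <;> omega
  obtain ⟨j, hj⟩ : ∃ j, j = a / v := ⟨_, rfl⟩
  have hj1 : v * j ≤ a := by rw [hj]; exact Nat.mul_div_le a v
  have hj2 : a < v * j + v := by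
    have := Nat.div_add_mod a v
    have := Nat.mod_lt a hv1
    rw [hj]; omega
  have hj3 : j ≤ h / v := by rw [hj]; exact Nat.div_le_div_right hah
  obtain ⟨s, hs, hsx⟩ := K.fast Z
  obtain ⟨r₀, hr₀⟩ : ∃ r₀ : ℤ, r₀ = (ρ g').x - sg Z * (v * j : ℕ) := ⟨_, rfl⟩
  have hr1 : -(v : ℤ) < r₀ ∧ r₀ < v := by cases Z <;> simp only [sg] at ha hr₀ <;> omega
  have e1 : (ρ g').x + j * (ρ s⁻¹).x = r₀ := by
    rw [map_inv, Wr.inv_x, hsx, hr₀]; push_cast; ring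
  have hga := K.E_walk hg' (K.Vinv _ hs) j (by omega) (by omega)
  have hgax : (ρ (g' * s⁻¹ ^ j)).x = r₀ := by rw [map_mul, Wr.mul_x, K.pow_x, e1]
  obtain ⟨g₁, hg₁⟩ : ∃ g₁, g₁ = g' * s⁻¹ ^ j * τ ^ (-r₀) := ⟨_, rfl⟩
  have hg₁x : (ρ g₁).x = 0 := by rw [hg₁, map_mul, Wr.mul_x, hgax, K.tpow_x]; ring
  have hg₁E : g₁ ∈ EE α β τ ρ h c (e + 1) := by
    refine ⟨hg₁ ▸ K.MM_tpow hga.1 _, by omega, by omega, ?_, ?_⟩
    · rw [hg₁, map_mul, Wr.mul_f, K.tpow_f, mul_one]; exact hga.2.2.2.1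
    · rw [hg₁, map_mul, Wr.mul_f, K.tpow_f, mul_one]; exact hga.2.2.2.2
  obtain ⟨w, hw⟩ : ∃ w, w = τ ^ r₀ * s ^ j := ⟨_, rfl⟩
  have hgw : g₁ * w = g' := by rw [hg₁, hw, zpow_neg, inv_pow]; group
  have hwl : len w ≤ c₁ * v + h / v := by
    have i1 := K.len_mul (τ ^ r₀) (s ^ j)
    have i2 := K.len_tpow r₀
    have i3 := K.len_pow hs j
    have i4 : c₁ * r₀.natAbs ≤ c₁ * v := Nat.mul_le_mul_left _ (by omega)
    rw [hw]; omega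
  have l1 : (ρ w).f (ys n h 0 - (ρ g₁).x) = 1 := by
    have := hg'.2.2.2.1
    rw [← hgw, map_mul, Wr.mul_f, hg₁E.2.2.2.1] at this
    exact mul_eq_left.1 this
  have l2 : (ρ w).f (ys n h 1 - (ρ g₁).x) = 1 := by
    have := hg'.2.2.2.2
    rw [← hgw, map_mul, Wr.mul_f, hg₁E.2.2.2.2] at this
    exact mul_eq_left.1 this
  obtain ⟨g₂, hg₂, _, _, hs₂⟩ := K.E_change (Or.inr rfl) hg₁E hg₁x
  have hcu : c * u ≤ R := le_trans (Nat.mul_le_mul_left _ (by omega)) hR'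
  obtain ⟨q, Y, a1, a2, a3, _, a5⟩ := K.steer u hcu ((K.len_iff _ _).1 (hu g₂ hg₂))
  have hq := hQ q a5
  rw [hg₂.2.2.2.1] at a1
  rw [hg₂.2.2.2.2] at a2
  obtain ⟨d₁, hd₁, d₂, hd₂, X, w₁, hw₁, w₂, hw₂, f₁, hf₁, f₂, hf₂, hor⟩ :=
    (alt_key he (by omega) a1 a2).2 Z
  obtain ⟨g'', i1, hs₃⟩ := a3 d₁ hd₁ d₂ hd₂
  have hs₄ := hs₂.symm.trans hs₃
  obtain ⟨p, p1, p2⟩ := K.trip X hw₁ hw₂
  obtain ⟨g₃, t₁, t₂, k1, k2, k3, k4⟩ : ∃ g₃ t₁ t₂, len g₃ ≤ len g'' + len p ∧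
      Sim ρ h g₁ g₃ t₁ t₂ ∧ t₁ * f₁ = r (((e + 1 : ℕ) : ℤ) : ZMod m) ∧
      t₂ * f₂ = r ((-((e + 1 : ℕ) : ℤ) : ℤ) : ZMod m) := by
    rcases hor with ⟨o1, o2⟩ | ⟨o1, o2⟩
    · exact ⟨p * g'', _, _, by have := K.len_mul p g''; omega, hs₄.left hy p2, o1, o2⟩
    · exact ⟨g'' * p, _, _, K.len_mul g'' p, hs₄.press hy (by simpa [hg₁x] using p2), o1, o2⟩
  have hs₅ := k2.mul w
  rw [l1, l2, mul_one, mul_one, hgw] at hs₅
  obtain ⟨κ, m1, m2, _⟩ := K.press Z (ρ g').x hf₁ hf₂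
  have hs₆ := hs₅.press hy m2
  rw [k3, k4, ← hg'.2.2.2.1, ← hg'.2.2.2.2] at hs₆
  have m3 : c₁ * (4 * (sg Z * h - (ρ g').x).natAbs + 6) ≤ c₁ * (4 * c + 4 * v + 10) := by
    apply Nat.mul_le_mul_left
    cases Z <;> simp only [sg] at hZ ⊢ <;> omega
  have m4 : c₁ * (4 * c + 10) * q ≤ c₁ * (4 * c + 10) * Q := Nat.mul_le_mul_left _ hq
  have m5 : c₁ * (4 * v + 6) + c₁ * v + c₁ * (4 * c + 4 * v + 10) ≤ c₁ * (13 * c + 16) := by
    rw [← Nat.mul_add, ← Nat.mul_add]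
    exact Nat.mul_le_mul_left _ (by omega)
  have m6 : len (g₃ * w * κ) ≤ u + 3 * (h / v) + (c₁ * (4 * c + 10) * Q + c₁ * (13 * c + 16)) := by
    have i2 := K.len_mul (g₃ * w) κ
    have i3 := K.len_mul g₃ w
    omega
  have m7 : h / v ≤ h := Nat.div_le_self h v
  have := K.len_close (K.MM_mono (by omega) hg'.1)
    (le_trans (Nat.mul_le_mul_left _ (by omega)) hR') hs₆.eq
  omega

/-- There are deep pockets. -/
theorem not_NP {d C₀ B : ℕ} (hC : C ≤ h) (hC₀ : C₀ = v * (49 * c₁ + 1)) (hB : B = 9 * C₀ + 4)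
    (h1 : 2 * (4 * (c + 1) + v * (c₁ * (4 * c + 10) * B + c₁ * (13 * c + 16) + C + d)) ≤ h)
    (h2 : c * ((B + 4) * h) ≤ R) (h3 : 2 * B < m) : ¬ NP V len d := by
  intro hNP
  have hc := K.hc
  have hvc := K.vc
  have hv1 := K.v1
  obtain ⟨err, herr⟩ : ∃ err, err = c₁ * (4 * c + 10) * B + c₁ * (13 * c + 16) + C + d := ⟨_, rfl⟩
  rw [← herr] at h1
  have herr2 : err ≤ v * err := Nat.le_mul_of_pos_left _ hv1
  have hQ : ∀ u, v * u ≤ B * h → ∀ q : ℕ,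
      2 * (q * ((h : ℤ) - c - 1)) - ((h : ℤ) - c - 1) ≤ (v * u : ℕ) → q ≤ B := by
    intro u hu q hq
    by_contra hcon
    have i1 : ((B + 1 : ℕ) : ℤ) * ((h : ℤ) - c - 1) ≤ q * ((h : ℤ) - c - 1) :=
      mul_le_mul_of_nonneg_right (by exact_mod_cast (by omega : B + 1 ≤ q)) (by omega)
    have i2 : (B : ℤ) * h ≤ B * (2 * ((h : ℤ) - c - 1)) :=
      mul_le_mul_of_nonneg_left (by omega) (by omega)
    have i3 : ((v * u : ℕ) : ℤ) ≤ (B : ℤ) * h := by exact_mod_cast hu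
    push_cast at i1
    nlinarith
  have hbd : ∀ i u, i ≤ 2 * C₀ + 1 → v * u ≤ C₀ * h + i * (3 * h + v * err) → v * u ≤ B * h := by
    intro i u hi hu
    have i1 : i * (3 * h + v * err) ≤ (2 * C₀ + 1) * (4 * h) := Nat.mul_le_mul hi (by omega)
    have i2 : B * h = C₀ * h + (2 * C₀ + 1) * (4 * h) := by rw [hB]; ring
    omega
  have hul : ∀ u, v * u ≤ B * h → u ≤ B * h := fun u hu =>
    le_trans (Nat.le_mul_of_pos_left _ hv1) hu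
  have key : ∀ i, i ≤ 2 * C₀ + 1 → ∃ u, (∀ g ∈ EE α β τ ρ h c (i + 1), len g ≤ u) ∧
      v * u ≤ C₀ * h + i * (3 * h + v * err) := by
    intro i
    induction i with
    | zero =>
      intro _
      have i1 : c₁ * (25 * h + 24) ≤ 49 * c₁ * h := by nlinarith
      have i2 : 49 * c₁ + 1 ≤ C₀ := by rw [hC₀]; exact Nat.le_mul_of_pos_left _ hv1
      have i3 : 49 * c₁ * h ≤ (B + 4) * h := Nat.mul_le_mul_right _ (by omega)
      refine ⟨C + c₁ * (25 * h + 24), fun g hg => K.crude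
        (le_trans (Nat.mul_le_mul_left _ (by omega)) h2) hg, ?_⟩
      have i4 : C + c₁ * (25 * h + 24) ≤ (49 * c₁ + 1) * h := by nlinarith
      have i5 := Nat.mul_le_mul_left v i4
      rw [hC₀]
      nlinarith
    | succ i ih =>
      intro hi
      obtain ⟨u, hu1, hu2⟩ := ih (by omega)
      have hu3 := hbd i u (by omega) hu2
      have hu4 := hul u hu3
      obtain ⟨g', hg', hb, hmax⟩ := K.boundary hNP (i + 1 + 1)
      have i1 := K.main_step (by omega) hu1 (hQ u hu3) (by omega)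
        (le_trans (Nat.mul_le_mul_left _ (by nlinarith)) h2) hg' hb
      refine ⟨len g' + d, hmax, ?_⟩
      have i2 : len g' + d ≤ u + 3 * (h / v) + err := by omega
      have i3 := Nat.mul_le_mul_left v i2
      have i4 : v * (h / v) ≤ h := Nat.mul_div_le h v
      nlinarith
  obtain ⟨u, hu1, hu2⟩ := key _ le_rfl
  have hu3 := hbd _ u le_rfl hu2
  have hu4 := hul u hu3
  have i1 := K.lower (by omega) hu1 (hQ u hu3) (by omega)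
    (le_trans (Nat.mul_le_mul_left _ (by nlinarith)) h2)
  have i2 : ((v * u : ℕ) : ℤ) ≤ C₀ * h + (2 * C₀ + 1) * (3 * h + (v * err : ℕ)) := by
    exact_mod_cast hu2
  have i3 : 2 * (4 * ((c : ℤ) + 1) + (v * err : ℕ)) ≤ h := by exact_mod_cast h1
  generalize ((v * err : ℕ) : ℤ) = E at i2 i3
  generalize ((v * u : ℕ) : ℤ) = U at i1 i2
  push_cast at i1
  have i4 : (0 : ℤ) ≤ C₀ := Int.natCast_nonneg _
  have i5 : (2 * (C₀ : ℤ) + 1) * (2 * (4 * ((c : ℤ) + 1) + E)) ≤ (2 * C₀ + 1) * h :=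
    mul_le_mul_of_nonneg_left i3 (by omega)
  have i6 : 2 * ((c : ℤ) + 1) ≤ h := by exact_mod_cast hc
  nlinarith

end Ctx

end Pool.Agent.H388Z.RD
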