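import Mathlib
import Pool.Agent.H388Z.RD.Core3

namespace Pool.Agent.H388Z.RD

open Pool.Agent.Helper376.DL (Ball ball_succ ball_mono ball_add ball_mono_succ)
open Pool.Agent.Helper376.Lac (Joined)

section gen

variable {G : Type} [Group G] {α β τ : G} {n n' : ℕ} {D D' : Type} [Group D] [Group D']
  {ρ : G →* Wr n D} {ρ' : G →* Wr n' D'} {k k' : ℤ} {a b : D} {a' b' : D'}

theorem ball_SG (h : IsLev α β τ ρ k a b) {l : ℕ} {g : G} (hg : g ∈ Ball (SG (Lam α β) τ) l) :
    g * (τ ^ (ρ g).x)⁻¹ ∈ NW (Lam α β) τ l ∧ -(l : ℤ) ≤ (ρ g).x ∧ (ρ g).x ≤ l := by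
  induction l generalizing g with
  | zero =>
    have : g = 1 := hg
    subst this
    simp
  | succ l ih =>
    obtain ⟨g, hg, s, hs, rfl⟩ := hg
    obtain ⟨i1, i2, i3⟩ := ih hg
    have i4 := NW_mono (Nat.le_succ l) i1
    rcases hs with rfl | rfl | rfl | hs
    · rw [mul_one]; exact ⟨i4, by omega, by omega⟩
    · have e : (ρ (g * s)).x = (ρ g).x + 1 := by rw [map_mul, Wr.mul_x, h.ta]; rfl
      rw [e]
      refine ⟨?_, by omega, by omega⟩
      have e2 : g * s * (s ^ ((ρ g).x + 1))⁻¹ = g * (s ^ (ρ g).x)⁻¹ := by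
        rw [zpow_add_one]; group
      rw [e2]; exact i4
    · have e : (ρ (g * τ⁻¹)).x = (ρ g).x - 1 := by
        rw [map_mul, Wr.mul_x, map_inv, h.ta]; rfl
      rw [e]
      refine ⟨?_, by omega, by omega⟩
      have e2 : g * τ⁻¹ * (τ ^ ((ρ g).x - 1))⁻¹ = g * (τ ^ (ρ g).x)⁻¹ := by
        rw [zpow_sub_one]; group
      rw [e2]; exact i4
    · have e0 : (ρ s).x = 0 := by
        have := h.nw_x (lamp_mem_NW (t := τ) hs (m := 0) (j := 0) (by simp) (by simp))
        simpa using this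
      have e : (ρ (g * s)).x = (ρ g).x := by rw [map_mul, Wr.mul_x, e0, add_zero]
      rw [e]
      refine ⟨?_, by omega, by omega⟩
      have e2 : g * s * (τ ^ (ρ g).x)⁻¹ =
          g * (τ ^ (ρ g).x)⁻¹ * (τ ^ (ρ g).x * s * (τ ^ (ρ g).x)⁻¹) := by group
      rw [e2]
      exact Subgroup.mul_mem _ i4 (lamp_mem_NW hs (by omega) (by omega))

theorem lev_x_eq (hgen : Subgroup.closure (SG (Lam α β) τ) = ⊤) (h : IsLev α β τ ρ k a b)
    (h' : IsLev α β τ ρ' k' a' b') (g : G) : (ρ g).x = (ρ' g).x := by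
  obtain ⟨l, ν, hν, j, rfl⟩ := exists_decomp Lam_inv hgen g
  rw [map_mul, map_mul, Wr.mul_x, Wr.mul_x, h.nw_x hν, h'.nw_x hν, h.tpow, h'.tpow]

theorem ball_map {G' : Type} [Group G'] (φ : G →* G') {l : ℕ} {g : G}
    (hg : g ∈ Ball (SG (Lam α β) τ) l) : φ g ∈ Ball (SG (Lam (φ α) (φ β)) (φ τ)) l := by
  induction l generalizing g with
  | zero =>
    have : g = 1 := hg
    subst this
    exact map_one φ
  | succ l ih =>
    obtain ⟨g, hg, s, hs, rfl⟩ := hg
    rw [map_mul]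
    refine ball_succ (ih hg) ?_
    rcases hs with rfl | rfl | rfl | rfl | rfl | rfl | rfl <;> simp [SG, Lam]

theorem ball_closure {U : Set G} {l : ℕ} {g : G} (hg : g ∈ Ball U l) :
    g ∈ Subgroup.closure U := by
  induction l generalizing g with
  | zero =>
    have : g = 1 := hg
    subst this
    exact Subgroup.one_mem _
  | succ l ih =>
    obtain ⟨g, hg, s, hs, rfl⟩ := hg
    exact Subgroup.mul_mem _ (ih hg) (Subgroup.subset_closure hs)

end gen

/-- The free group on three letters. -/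
abbrev FF : Type := FreeGroup (Fin 3)

/-- First letter. -/
def fa : FF := FreeGroup.of 0
/-- Second letter. -/
def fb : FF := FreeGroup.of 1
/-- Third letter. -/
def ft : FF := FreeGroup.of 2

theorem FF_gen : Subgroup.closure (SG (Lam fa fb) ft) = ⊤ := by
  rw [eq_top_iff, ← FreeGroup.closure_range_of]
  apply Subgroup.closure_mono
  rintro _ ⟨i, rfl⟩
  fin_cases i <;> simp [SG, Lam, fa, fb, ft]

/-- Evaluation in a level. -/
def levHom (n : ℕ) {D : Type} [Group D] (k : ℤ) (a b : D) : FF →* Wr n D :=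
  FreeGroup.lift ![pt 0 a, pt (-(k : ZMod n)) b, sh]

theorem levHom_lev (n : ℕ) {D : Type} [Group D] (k : ℤ) (a b : D) :
    IsLev fa fb ft (levHom n k a b) k a b :=
  ⟨by simp [levHom, fa], by simp [levHom, fb], by simp [levHom, ft]⟩

/-- The lamplighter level. -/
def lamF : FF →* Wr 0 (C2 × C2) := levHom 0 0 (c2, 1) (1, c2)

/-- The type of a level. -/
abbrev Lv (l h : ℕ) : Type := Wr (4 * ((l + 2) * h)) (DihedralGroup (2 * (l + 1)))

/-- The dihedral levels. -/
def phi (l h : ℕ) : FF →* Lv l h := levHom _ (2 * (h : ℤ) - 1) (gn _ false) (gn _ true)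

/-- The property of the correction radius. -/
def CP (i : ℕ) (v : Fin i → ℕ) (C : ℕ) : Prop :=
  ∀ w, lamF w = 1 → ∃ w' ∈ Ball (SG (Lam fa fb) ft) C, lamF w' = 1 ∧
    ∀ l : Fin i, phi l (v l) w' = phi l (v l) w

theorem exists_CP (i : ℕ) (v : Fin i → ℕ) (hv : ∀ l, 1 ≤ v l) : ∃ C, CP i v C := by
  classical
  let Φ : FF → (∀ l : Fin i, ZMod (4 * ((l + 2) * v l)) → DihedralGroup (2 * (l + 1))) :=
    fun w l => (phi l (v l) w).f
  have hfin : Finite (∀ l : Fin i, ZMod (4 * ((l + 2) * v l)) → DihedralGroup (2 * (l + 1))) := by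
    have h1 : ∀ l : Fin i, Finite (ZMod (4 * ((l + 2) * v l)) → DihedralGroup (2 * (l + 1))) := by
      intro l
      have : NeZero (4 * ((l + 2) * v l)) := ⟨by have := hv l; positivity⟩
      have : NeZero (2 * ((l : ℕ) + 1)) := ⟨by positivity⟩
      infer_instance
    infer_instance
  have h2 : ∀ y, ∃ k, (∃ w, lamF w = 1 ∧ Φ w = y) →
      ∃ w' ∈ Ball (SG (Lam fa fb) ft) k, lamF w' = 1 ∧ Φ w' = y := by
    intro y
    by_cases hy : ∃ w, lamF w = 1 ∧ Φ w = y
    · obtain ⟨w, h1, h2⟩ := hy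
      obtain ⟨k, hk⟩ := exists_mem_ball (fun _ hs => SG_inv Lam_inv hs) FF_gen w
      exact ⟨k, fun _ => ⟨w, hk, h1, h2⟩⟩
    · exact ⟨0, fun h => absurd h hy⟩
  choose f hf using h2
  obtain ⟨C, hC⟩ := (Set.finite_range f).bddAbove
  refine ⟨C, fun w hw => ?_⟩
  obtain ⟨w', h1, h2, h3⟩ := hf (Φ w) ⟨w, hw, rfl⟩
  refine ⟨w', ball_mono SG_one (hC ⟨_, rfl⟩) h1, h2, fun l => ?_⟩
  apply Wr.ext
  · exact congrFun h3 l
  · have e1 := lev_x_eq FF_gen (levHom_lev (4 * ((l + 2) * v l)) (2 * (v l : ℤ) - 1)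
      (gn (2 * (l + 1)) false) (gn _ true)) (levHom_lev 0 0 (c2, (1 : C2)) (1, c2))
    have e2 : (phi l (v l) w').x = (lamF w').x := e1 w'
    have e3 : (phi l (v l) w).x = (lamF w).x := e1 w
    rw [e2, e3, h2, hw]

/-- The correction radius. -/
noncomputable def Cb (i : ℕ) (v : Fin i → ℕ) : ℕ := sInf {C | CP i v C}

/-- The scales. -/
noncomputable def hh (i : ℕ) : ℕ :=
  (i + 1) * (Cb i (fun l => hh l) + 1) + ∑ l : Fin i, ((l : ℕ) + 2) * hh l
termination_by i
decreasing_by all_goals exact l.2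

/-- The correction radii. -/
noncomputable def CC (i : ℕ) : ℕ := Cb i (fun l => hh l)

theorem hh_eq (i : ℕ) : hh i = (i + 1) * (CC i + 1) + ∑ l : Fin i, ((l : ℕ) + 2) * hh l := by
  rw [hh]; rfl

theorem hh_ge (i : ℕ) : (i + 1) * (CC i + 1) ≤ hh i := by rw [hh_eq]; omega

theorem hh_pos (i : ℕ) : 1 ≤ hh i := le_trans (Nat.mul_pos (by omega) (by omega)) (hh_ge i)

theorem hh_lt {i l : ℕ} (h : i < l) : (i + 2) * hh i < hh l := by
  rw [hh_eq l]
  have h1 := Finset.single_le_sum (f := fun j : Fin l => ((j : ℕ) + 2) * hh j)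
    (fun _ _ => Nat.zero_le _) (Finset.mem_univ (⟨i, h⟩ : Fin l))
  have h2 : 0 < (l + 1) * (CC l + 1) := Nat.mul_pos (by omega) (by omega)
  simp only at h1
  omega

theorem CC_lt {i l : ℕ} (h : i ≤ l) : CC i < hh l := by
  have h1 := hh_ge i
  have h2 : CC i + 1 ≤ (i + 1) * (CC i + 1) := Nat.le_mul_of_pos_left _ (by omega)
  rcases Nat.eq_or_lt_of_le h with rfl | h3
  · omega
  · have h4 := hh_lt h3
    have h5 : hh i ≤ (i + 2) * hh i := Nat.le_mul_of_pos_left _ (by omega)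
    omega

theorem CC_spec (i : ℕ) : CP i (fun l => hh l) (CC i) :=
  Nat.sInf_mem (exists_CP i _ (fun l => hh_pos l))

/-- The diagonal map. -/
noncomputable def PhiF : FF →* Wr 0 (C2 × C2) × (∀ l : ℕ, Lv l (hh l)) :=
  lamF.prod (Pi.monoidHom (fun l => phi l (hh l)))

/-- The group. -/
abbrev GG : Type := PhiF.range

/-- The quotient map. -/
noncomputable def piF : FF →* GG := PhiF.rangeRestrict

/-- First generator. -/
noncomputable def ga : GG := piF fa
/-- Second generator. -/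
noncomputable def gb : GG := piF fb
/-- Third generator. -/
noncomputable def gt : GG := piF ft

/-- The lamplighter quotient. -/
noncomputable def lamG : GG →* Wr 0 (C2 × C2) := (MonoidHom.fst _ _).comp PhiF.range.subtype

/-- The level maps. -/
noncomputable def rho (l : ℕ) : GG →* Lv l (hh l) :=
  (Pi.evalMonoidHom (fun l => Lv l (hh l)) l).comp
    ((MonoidHom.snd _ _).comp PhiF.range.subtype)

theorem lamG_pi (w : FF) : lamG (piF w) = lamF w := rfl

theorem rho_pi (l : ℕ) (w : FF) : rho l (piF w) = phi l (hh l) w := rfl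

theorem GG_ext {g g' : GG} (h1 : lamG g = lamG g') (h2 : ∀ l, rho l g = rho l g') : g = g' := by
  apply Subtype.ext
  apply Prod.ext h1
  funext l
  exact h2 l

theorem lamG_lev : IsLev ga gb gt lamG 0 (c2, 1) (1, c2) :=
  ⟨(levHom_lev 0 0 (c2, (1 : C2)) (1, c2)).al, (levHom_lev 0 0 (c2, (1 : C2)) (1, c2)).be,
    (levHom_lev 0 0 (c2, (1 : C2)) (1, c2)).ta⟩

theorem rho_lev (l : ℕ) :
    IsLev ga gb gt (rho l) (2 * (hh l : ℤ) - 1) (gn _ false) (gn _ true) :=
  ⟨(levHom_lev _ (2 * (hh l : ℤ) - 1) (gn _ false) (gn _ true)).al,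
    (levHom_lev _ (2 * (hh l : ℤ) - 1) (gn _ false) (gn _ true)).be,
    (levHom_lev _ (2 * (hh l : ℤ) - 1) (gn _ false) (gn _ true)).ta⟩

theorem piF_surj : Function.Surjective piF := PhiF.rangeRestrict_surjective

theorem GG_gen : Subgroup.closure (SG (Lam ga gb) gt) = ⊤ := by
  rw [eq_top_iff]
  intro g _
  obtain ⟨w, rfl⟩ := piF_surj g
  obtain ⟨k, hk⟩ := exists_mem_ball (fun _ hs => SG_inv Lam_inv hs) FF_gen w
  exact ball_closure (ball_map piF hk)

theorem zero_inj : ∀ p q : ℤ, ((p : ℤ) : ZMod 0) = ((q : ℤ) : ZMod 0) → p = q := fun _ _ h => h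

theorem rho_invisible (l R : ℕ) (hR : R < hh l) {ν : GG} (hν : ν ∈ NW (Lam ga gb) gt R)
    (h1 : lamG ν = 1) : rho l ν = 1 := by
  have h2 : 2 * hh l ≤ (l + 2) * hh l := Nat.mul_le_mul_right _ (by omega)
  exact invisible zero_inj lamG_lev (rho_lev l) (gn_sq _) (gn_sq _) R (by omega) (by omega) hν h1

/-- The short kernel property. -/
theorem short_kernel (i : ℕ) {g : GG} (hg : g ∈ NW (Lam ga gb) gt ((i + 2) * hh i))
    (h1 : rho i g = 1) : g ∈ Ball (SG (Lam ga gb) gt) (CC i) := by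
  have h0 : 0 < (i + 2) * hh i := Nat.mul_pos (by omega) (hh_pos i)
  have h2 : lamG g = 1 := visible zero_inj lamG_lev (rho_lev i) (chiA _) (chiB _) (chiA_false _)
    (chiA_true _) (chiB_false _) (chiB_true _) _ (by omega) hg h1
  obtain ⟨w, rfl⟩ := piF_surj g
  obtain ⟨w', a1, a2, a3⟩ := CC_spec i w h2
  have a4 : piF w' ∈ Ball (SG (Lam ga gb) gt) (CC i) := ball_map piF a1
  have a5 : piF w' ∈ NW (Lam ga gb) gt (CC i) := by
    have := (ball_SG lamG_lev a4).1
    rw [lamG_pi, a2] at this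
    simpa using this
  have e : piF w = piF w' := by
    apply GG_ext
    · rw [h2, lamG_pi, a2]
    · intro l
      rcases lt_trichotomy l i with h3 | h3 | h3
      · exact (a3 ⟨l, h3⟩).symm
      · subst h3
        rw [h1, rho_invisible l _ (CC_lt le_rfl) a5 a2]
      · rw [rho_invisible l _ (hh_lt h3) hg h2, rho_invisible l _ (CC_lt h3.le) a5 a2]
  rw [e]; exact a4

theorem NW_finite (m : ℕ) : (NW (Lam ga gb) gt m : Set GG).Finite := by
  have h1 : m ≤ (m + 2) * hh m := by have := hh_pos m; nlinarith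
  refine Set.Finite.subset ?_ (NW_mono h1)
  have : NeZero (4 * ((m + 2) * hh m)) := ⟨by have := hh_pos m; positivity⟩
  have : NeZero (2 * (m + 1)) := ⟨by positivity⟩
  refine Set.Finite.of_finite_fibers (fun g => (rho m g).f) (Set.toFinite _) ?_
  rintro _ ⟨g, hg, rfl⟩
  refine ((ball_fin (SG_finite gt (Lam_finite ga gb)) (CC m)).image (fun w => g * w)).subset ?_
  rintro g' ⟨h2, h3⟩
  refine ⟨g⁻¹ * g', short_kernel m (Subgroup.mul_mem _ (Subgroup.inv_mem _ hg) h2) ?_, by simp⟩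
  have e : rho m g' = rho m g :=
    Wr.ext h3 (((rho_lev m).nw_x h2).trans ((rho_lev m).nw_x hg).symm)
  rw [map_mul, map_inv, e, inv_mul_cancel]

theorem lamp_inj (i j : ℤ) (h : gt ^ i * ga * (gt ^ i)⁻¹ = gt ^ j * ga * (gt ^ j)⁻¹) : i = j := by
  have h1 := congrArg lamG h
  rw [lamG_lev.alp, lamG_lev.alp] at h1
  have h2 := congrArg (fun g : Wr 0 (C2 × C2) => g.f (Int.cast i)) h1
  simp only [pt_f, if_true] at h2
  split_ifs at h2 with h3
  · exact zero_inj _ _ h3
  · exact absurd (congrArg Prod.fst h2) c2_ne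

/-- The cursor. -/
noncomputable def eta : GG →* Multiplicative ℤ := (curs 0 (C2 × C2)).comp lamG

theorem eta_lam : ∀ a ∈ Lam ga gb, eta a = 1 := by
  intro a ha
  have := lamG_lev.nw_x (lamp_mem_NW (t := gt) ha (m := 0) (j := 0) (by simp) (by simp))
  simp only [zpow_zero, one_mul, inv_one, mul_one] at this
  simp [eta, curs, this]

theorem eta_gt : eta gt = Multiplicative.ofAdd 1 := by
  simp [eta, curs, lamG_lev.ta, sh]

theorem GG_infinite : Infinite GG := by
  refine Infinite.of_injective (fun j : ℤ => gt ^ j) ?_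
  intro i j h
  have h1 := congrArg eta h
  simp only [eta_zpow eta eta_gt] at h1
  exact Multiplicative.ofAdd.injective h1

/-- Deep pockets for every generating set. -/
theorem deep_pockets {V : Set GG} (hV : V.Finite) (h1 : (1 : GG) ∈ V) (hinv : ∀ s ∈ V, s⁻¹ ∈ V)
    (hgen : Subgroup.closure V = ⊤) {len : GG → ℕ} (hlen : ∀ g k, len g ≤ k ↔ g ∈ Ball V k)
    (d : ℕ) : ¬ NP V len d := by
  obtain ⟨c, hc⟩ := exists_scale hV (V := SG (Lam ga gb) gt) SG_one
    (fun _ hs => SG_inv Lam_inv hs) GG_gen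
  have hc' := hc c le_rfl
  obtain ⟨c₁, hc₁⟩ := exists_scale (SG_finite gt (Lam_finite ga gb)) h1 hinv hgen
  have hc₁' := hc₁ c₁ le_rfl
  obtain ⟨s₀, hs₀, hmax⟩ := Set.exists_max_image V (fun s => (lamG s).x) hV ⟨1, h1⟩
  have hpos : 1 ≤ (lamG s₀).x := by
    by_contra hcon
    have h2 : ∀ s ∈ V, (lamG s).x = 0 := by
      intro s hs
      have i1 := hmax s hs
      have i2 := hmax _ (hinv s hs)
      simp only [map_inv, Wr.inv_x] at i1 i2
      omega
    have h3 : ∀ g ∈ Subgroup.closure V, (lamG g).x = 0 := by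
      refine closure_ind_sym hinv (by simp) ?_
      intro x _ y hy ih
      rw [map_mul, Wr.mul_x, ih, h2 y hy, add_zero]
    have h4 := h3 gt (by rw [hgen]; trivial)
    rw [lamG_lev.ta] at h4
    simp [sh] at h4
  obtain ⟨v, hv⟩ : ∃ v : ℕ, (v : ℤ) = (lamG s₀).x := ⟨_, Int.toNat_of_nonneg (by omega)⟩
  obtain ⟨C₀, hC₀⟩ : ∃ C₀, C₀ = v * (49 * c₁ + 1) := ⟨_, rfl⟩
  obtain ⟨B, hB⟩ : ∃ B, B = 9 * C₀ + 4 := ⟨_, rfl⟩
  obtain ⟨A, hA⟩ : ∃ A, A = c₁ * (4 * c + 10) * B + c₁ * (13 * c + 16) := ⟨_, rfl⟩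
  obtain ⟨i, hi⟩ : ∃ i, i = 2 * (v * c₁) + 2 * (4 * (c + 1) + v * (A + d)) + c * (B + 4) + B + c₁ :=
    ⟨_, rfl⟩
  have hx : ∀ g, (rho i g).x = (lamG g).x := lev_x_eq GG_gen (rho_lev i) lamG_lev
  have hh1 := hh_ge i
  have hh2 : (i + 1) * (CC i + 1) = (i + 1) * CC i + (i + 1) := by ring
  have hh3 : 2 * (v * c₁) * CC i ≤ (i + 1) * CC i := Nat.mul_le_mul_right _ (by omega)
  have hh4 : c₁ * CC i ≤ (i + 1) * CC i := Nat.mul_le_mul_right _ (by omega)
  have K : Ctx ga gb gt V len (rho i) (hh i) c v c₁ (c₁ * CC i) ((i + 2) * hh i) s₀ :=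
    { lev := rho_lev i
      V1 := h1
      Vinv := hinv
      len_iff := hlen
      Vc := fun s hs => (ball_SG (rho_lev i) (hc' hs)).1
      Vv := fun s hs => by
        have i1 := hmax s hs
        have i2 := hmax _ (hinv s hs)
        simp only [map_inv, Wr.inv_x] at i1 i2
        rw [hx]; omega
      vc := by
        have := (ball_SG lamG_lev (hc' hs₀)).2.2
        omega
      v1 := by omega
      s0V := hs₀
      s0x := by rw [hx, hv]
      SV := hc₁'
      P := fun g hg h2 => (hlen _ _).2 (ball_subset_ball hc₁' (short_kernel i hg h2))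
      fin := NW_finite _
      hc := by omega
      hR := Nat.mul_le_mul_right _ (by omega)
      hn := le_rfl }
  refine K.not_NP (by omega) hC₀ hB ?_ ?_ (by omega)
  · rw [← hA]
    have e : 2 * (4 * (c + 1) + v * (A + c₁ * CC i + d)) =
        2 * (v * c₁) * CC i + 2 * (4 * (c + 1) + v * (A + d)) := by ring
    omega
  · rw [← mul_assoc]
    exact Nat.mul_le_mul_right _ (by omega)

end Pool.Agent.H388Z.RD
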